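import Mathlib

set_option autoImplicit false

namespace Pool.Agent.TH499.NF

theorem arith (N1 N2 N3 N4 N5 : ℕ) (p0 p1 p2 q k z x y : ℤ) (hp0 : p0 = 0 ∨ p0 = 1)
    (hp1 : p1 = 0 ∨ p1 = 1) (hp2 : p2 = 0 ∨ p2 = 1) (hq : q = 0 ∨ q = 1) (hk : k = 1 ∨ k = -1)
    (hsum : z + x + y = 0) (hz : 2 ≤ k * z ∧ k * z ≤ 3) (hx : 1 ≤ - (k * x) ∧ - (k * x) ≤ 3)
    (hy : -1 ≤ y ∧ y ≤ 1)
    (hκ : (N1 : ℤ) + N3 - N2 - N4 + (k * (p0 - q) - k * (p1 - q)) = 0)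
    (hpar : Even ((N3 : ℤ) + N4 + N5 + (if p1 = q then 0 else 1) + (if p2 = q then 0 else 1))) :
    0 ≤ 3 * (N1 : ℤ) - 2 * N2 + 3 * N3 + 3 * N4 + 3 * N5 +
      (z * (p0 - q) + x * (p1 - q) + y * (p2 - q)) := by
  obtain ⟨m, hm⟩ := hpar
  rcases hk with rfl | rfl <;> rcases hq with rfl | rfl <;> rcases hp0 with rfl | rfl <;>
    rcases hp1 with rfl | rfl <;> rcases hp2 with rfl | rfl <;> norm_num at hm hκ hz hx ⊢ <;> omega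

end Pool.Agent.TH499.NF
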