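import Pool.Agent.TH499.NF.Fix

set_option autoImplicit false
set_option linter.unusedSectionVars false

/-! # The case in which all 3-edge-cuts are stars -/

namespace Pool.Agent.TH499.NF
open Finset Pool.Agent.H160R2.HF Pool.Agent.H179R3.HF

variable {V E : Type*} [Fintype V] [Fintype E] [DecidableEq V] [DecidableEq E]

theorem Nr.symm {G : OrGraph V E} {f : E → K4} {u v : V} {c : K4} (h : Nr G f u v c) :
    Nr G f v u c := ⟨h.nz, h.c0, fun x => by rw [h.bd x, add_comm]⟩

/-- not all three edges at the vertex have the value `c` -/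
def OK (G : OrGraph V E) (f : E → K4) (c : K4) (z : V) : Prop :=
  (G.cut {z}).card = 3 → ∃ g ∈ G.cut {z}, f g ≠ c

theorem bd_add (G : OrGraph V E) (f g : E → K4) (x : V) :
    bd G (fun e => f e + g e) x = bd G f x + bd G g x := by
  unfold bd
  rw [Finset.sum_add_distrib, Finset.sum_add_distrib]
  abel

theorem bd_const (G : OrGraph V E) (Q : Finset E) (y : K4) (x : V) (hQ : Even (G.deg Q x)) :
    bd G (fun e => if e ∈ Q then y else 0) x = 0 := by
  unfold bd
  have h1 : ∀ k : E → V, ∑ e with k e = x, (if e ∈ Q then y else 0) =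
      (Q.filter (fun e => k e = x)).card • y := by
    intro k
    rw [Finset.sum_ite_mem, Finset.sum_const]
    congr 2
    ext e
    simp [and_comm]
  rw [h1, h1, ← add_nsmul]
  obtain ⟨n, hn⟩ := hQ
  unfold OrGraph.deg at hn
  rw [hn, add_nsmul]
  exact k4_add_self _

theorem k4_five : ∀ a b y c : K4, a ≠ 0 → b ≠ 0 → a ≠ y → b ≠ y → y ≠ c → c ≠ 0 → y ≠ 0 →
    a + b + y ≠ c := by decide

theorem three_c : ∀ c : K4, c ≠ 0 → (3 : ℕ) • c ≠ 0 := by decide

theorem recol {G : OrGraph V E} {f : E → K4} {u v : V} {c : K4} (h : Nr G f u v c)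
    (huv : u ≠ v) : ∃ f', Nr G f' u v c ∧ OK G f' c u ∧ (OK G f c v → OK G f' c v) := by
  classical
  by_cases hu : OK G f c u
  · exact ⟨f, h, hu, fun hv => hv⟩
  unfold OK at hu
  push Not at hu
  obtain ⟨hu3, hall⟩ := hu
  obtain ⟨y, hy0, hyc, hyv⟩ : ∃ y : K4, y ≠ 0 ∧ y ≠ c ∧
      ((G.cut {v}).card = 3 → (∃ g ∈ G.cut {v}, f g ≠ c) → ∃ g ∈ G.cut {v}, f g = y) := by
    by_cases hv : ∃ g ∈ G.cut {v}, f g ≠ c
    · obtain ⟨g, hg, hgc⟩ := hv
      exact ⟨f g, h.nz g, hgc, fun _ _ => ⟨g, hg, rfl⟩⟩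
    · obtain ⟨b, hb0, hbc⟩ := exists_other c
      exact ⟨b, hb0, hbc, fun _ hv' => absurd hv' hv⟩
  obtain ⟨Q, hQ1, hQ2, e0, he0, he0u⟩ := exists_even h huv hu3 hall hy0 hyc
  refine ⟨fun e => f e + if e ∈ Q then y else 0, ⟨fun e => ?_, h.c0, fun x => ?_⟩, fun _ => ?_,
    fun hv hv3 => ?_⟩
  · show f e + (if e ∈ Q then y else 0) ≠ 0
    by_cases he : e ∈ Q
    · rw [if_pos he]
      have h1 : ∀ a b : K4, a ≠ b → a + b ≠ 0 := by decide
      exact h1 _ _ (hQ2 e he)
    · rw [if_neg he, add_zero]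
      exact h.nz e
  · rw [bd_add G f (fun e => if e ∈ Q then y else 0) x, bd_const G Q y x (hQ1 x), add_zero, h.bd x]
  · refine ⟨e0, he0u, ?_⟩
    show f e0 + (if e0 ∈ Q then y else 0) ≠ c
    rw [if_pos he0, hall e0 he0u]
    have h1 : ∀ a b : K4, b ≠ 0 → a + b ≠ a := by decide
    exact h1 _ _ hy0
  · obtain ⟨g0, hg0, hgy⟩ := hyv hv3 (hv hv3)
    have hsmall : (G.cut {v} ∩ Q).card ≤ 1 := by
      by_contra hcon
      have h2 : 1 < (G.cut {v} ∩ Q).card := by omega
      obtain ⟨a, b, ha, hb, hab⟩ := Finset.one_lt_card_iff.1 h2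
      rw [mem_inter] at ha hb
      have hag : a ≠ g0 := fun hh => hQ2 a ha.2 (hh ▸ hgy)
      have hbg : b ≠ g0 := fun hh => hQ2 b hb.2 (hh ▸ hgy)
      have hcard : ({a, b, g0} : Finset E).card = 3 := by
        rw [Finset.card_insert_of_notMem, Finset.card_pair hbg]
        simp only [Finset.mem_insert, Finset.mem_singleton, not_or]
        exact ⟨hab, hag⟩
      have hsub : ({a, b, g0} : Finset E) ⊆ G.cut {v} := by
        intro x hx
        simp only [Finset.mem_insert, Finset.mem_singleton] at hx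
        rcases hx with rfl | rfl | rfl
        · exact ha.1
        · exact hb.1
        · exact hg0
      have heq := Finset.eq_of_subset_of_card_le hsub (by rw [hcard, hv3])
      have hs := sum_bd G f {v}
      rw [Finset.sum_singleton, h.bd v, if_neg huv, if_pos rfl, zero_add, ← heq,
        Finset.sum_insert, Finset.sum_pair hbg, hgy] at hs
      · refine k4_five (f a) (f b) y c (h.nz a) (h.nz b) (hQ2 a ha.2) (hQ2 b hb.2) hyc h.c0 hy0 ?_
        rw [add_assoc]
        exact hs.symm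
      · simp only [Finset.mem_insert, Finset.mem_singleton, not_or]
        exact ⟨hab, hag⟩
    have heven : Even (G.cut {v} ∩ Q).card := by
      have h1 := G.handshake Q {v}
      rw [Finset.sum_singleton] at h1
      have h2 := hQ1 v
      rw [h1] at h2
      rw [Nat.even_add] at h2
      exact h2.1 (even_two_mul _)
    have hzero : (G.cut {v} ∩ Q).card = 0 := by
      obtain ⟨n, hn⟩ := heven
      omega
    have hg0Q : g0 ∉ Q := fun hh => by
      rw [Finset.card_eq_zero] at hzero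
      have : g0 ∈ G.cut {v} ∩ Q := mem_inter.2 ⟨hg0, hh⟩
      rw [hzero] at this
      exact absurd this (notMem_empty _)
    refine ⟨g0, hg0, ?_⟩
    show f g0 + (if g0 ∈ Q then y else 0) ≠ c
    rw [if_neg hg0Q, add_zero, hgy]
    exact hyc

/-- an edge with a value different from `c` in a cut with three edges and zero sum -/
theorem ne_of_zero {G : OrGraph V E} {f : E → K4} {c : K4} (hc : c ≠ 0) {X : Finset V}
    (hX : (G.cut X).card = 3) (hs : ∑ v ∈ X, bd G f v = 0) : ∃ g ∈ G.cut X, f g ≠ c := by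
  by_contra hcon
  push Not at hcon
  rw [sum_bd, Finset.sum_congr rfl hcon, Finset.sum_const, hX] at hs
  exact three_c c hc hs

theorem base {G : OrGraph V E} (hb : ∀ X : Finset V, (G.cut X).card ≠ 1) {f : E → K4} {u v : V}
    {c : K4} (h : Nr G f u v c)
    (h3 : ∀ X : Finset V, (G.cut X).card = 3 → ∃ z, G.cut X = G.cut {z}) :
    ∃ φ₂ φ₄ : E → ℤ, G.IsHalfFlowPair φ₂ φ₄ := by
  by_cases huv : u = v
  · refine pair_of hb h fun X hX => ne_of_zero h.c0 hX (Finset.sum_eq_zero fun x _ => ?_)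
    rw [h.bd x, huv]
    split_ifs
    · exact k4_add_self c
    · simp
  · obtain ⟨f1, h1, hu1, _⟩ := recol h huv
    obtain ⟨f2, h2, hv2, hu2⟩ := recol h1.symm (Ne.symm huv)
    refine pair_of hb h2.symm fun X hX => ?_
    obtain ⟨z, hz⟩ := h3 X hX
    rw [hz] at hX ⊢
    by_cases hzu : z = u
    · rw [hzu] at hX ⊢
      exact hu2 hu1 hX
    by_cases hzv : z = v
    · rw [hzv] at hX ⊢
      exact hv2 hX
    refine ne_of_zero h.c0 hX ?_
    rw [Finset.sum_singleton, h2.bd z, if_neg (fun hh => hzv hh.symm),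
      if_neg (fun hh => hzu hh.symm), add_zero]

end Pool.Agent.TH499.NF
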