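import Pool.Agent.TH499.NF.Base

set_option autoImplicit false
set_option linter.unusedSectionVars false

/-! # Recolouring without destroying nonconstant 3-edge-cuts -/

namespace Pool.Agent.TH499.NF
open Finset Pool.Agent.H160R2.HF Pool.Agent.H179R3.HF

variable {V E : Type*} [Fintype V] [Fintype E] [DecidableEq V] [DecidableEq E]

/-- a 3-edge-cut which is not the star of a vertex -/
def NT (G : OrGraph V E) (X : Finset V) : Prop := (G.cut X).card = 3 ∧ ∀ z, G.cut X ≠ G.cut {z}

/-- the values on every nontrivial 3-edge-cut are not all equal to `c` -/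
def HH (G : OrGraph V E) (f : E → K4) (c : K4) : Prop := ∀ X, NT G X → ∃ g ∈ G.cut X, f g ≠ c

theorem NT.compl {G : OrGraph V E} {X : Finset V} (h : NT G X) : NT G Xᶜ := by
  unfold NT
  rw [compl_cut]
  exact h

theorem even_cut {G : OrGraph V E} {Q : Finset E} (hQ : ∀ x, Even (G.deg Q x)) (X : Finset V) :
    Even (G.cut X ∩ Q).card := by
  have h1 := G.handshake Q X
  have h2 : Even (∑ v ∈ X, G.deg Q v) := Finset.even_sum _ fun v _ => hQ v
  rw [h1, Nat.even_add] at h2
  exact h2.1 (even_two_mul _)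

/-- an even set avoiding the value `y` does not cross a 3-edge-cut which contains the value `y` -/
theorem no_cross {G : OrGraph V E} {f : E → K4} {c y : K4} (hnz : ∀ e, f e ≠ 0) (hc : c ≠ 0)
    (hyc : y ≠ c) {X : Finset V} (hX : (G.cut X).card = 3) (hs : ∑ e ∈ G.cut X, f e = c)
    {g0 : E} (hg0 : g0 ∈ G.cut X) (hgy : f g0 = y) {Q : Finset E} (hQ1 : ∀ x, Even (G.deg Q x))
    (hQ2 : ∀ e ∈ Q, f e ≠ y) : ∀ e ∈ Q, e ∉ G.cut X := by
  have hy0 : y ≠ 0 := hgy ▸ hnz g0
  have hsmall : (G.cut X ∩ Q).card ≤ 1 := by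
    by_contra hcon
    have h2 : 1 < (G.cut X ∩ Q).card := by omega
    obtain ⟨a, b, ha, hb, hab⟩ := Finset.one_lt_card_iff.1 h2
    rw [mem_inter] at ha hb
    have hag : a ≠ g0 := fun hh => hQ2 a ha.2 (hh ▸ hgy)
    have hbg : b ≠ g0 := fun hh => hQ2 b hb.2 (hh ▸ hgy)
    have hcard : ({a, b, g0} : Finset E).card = 3 := by
      rw [Finset.card_insert_of_notMem, Finset.card_pair hbg]
      simp only [Finset.mem_insert, Finset.mem_singleton, not_or]
      exact ⟨hab, hag⟩
    have hsub : ({a, b, g0} : Finset E) ⊆ G.cut X := by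
      intro x hx
      simp only [Finset.mem_insert, Finset.mem_singleton] at hx
      rcases hx with rfl | rfl | rfl
      · exact ha.1
      · exact hb.1
      · exact hg0
    have heq := Finset.eq_of_subset_of_card_le hsub (by rw [hcard, hX])
    rw [← heq, Finset.sum_insert, Finset.sum_pair hbg, hgy] at hs
    · refine k4_five (f a) (f b) y c (hnz a) (hnz b) (hQ2 a ha.2) (hQ2 b hb.2) hyc hc hy0 ?_
      rw [add_assoc]
      exact hs
    · simp only [Finset.mem_insert, Finset.mem_singleton, not_or]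
      exact ⟨hab, hag⟩
  have hzero : (G.cut X ∩ Q).card = 0 := by
    obtain ⟨n, hn⟩ := even_cut hQ1 X
    omega
  intro e he heX
  rw [Finset.card_eq_zero] at hzero
  have : e ∈ G.cut X ∩ Q := mem_inter.2 ⟨heX, he⟩
  rw [hzero] at this
  exact absurd this (notMem_empty _)

theorem Nr.sum_sep {G : OrGraph V E} {f : E → K4} {u v : V} {c : K4} (h : Nr G f u v c)
    {X : Finset V} (hu : u ∈ X) (hv : v ∉ X) : ∑ e ∈ G.cut X, f e = c := by
  rw [← sum_bd, Finset.sum_congr rfl fun x _ => h.bd x, Finset.sum_add_distrib,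
    Finset.sum_ite_eq, Finset.sum_ite_eq, if_pos hu, if_neg hv, add_zero]

theorem Nr.sum_same {G : OrGraph V E} {f : E → K4} {u v : V} {c : K4} (h : Nr G f u v c)
    {X : Finset V} (huv : u ∈ X ↔ v ∈ X) : ∑ x ∈ X, NF.bd G f x = 0 := by
  rw [Finset.sum_congr rfl fun x _ => h.bd x, Finset.sum_add_distrib,
    Finset.sum_ite_eq, Finset.sum_ite_eq]
  by_cases hu : u ∈ X
  · rw [if_pos hu, if_pos (huv.1 hu)]
    exact k4_add_self c
  · rw [if_neg hu, if_neg fun hv => hu (huv.2 hv), add_zero]

/-- it suffices to treat the separating cuts -/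
theorem HH_of {G : OrGraph V E} {f : E → K4} {u v : V} {c : K4} (h : Nr G f u v c)
    (hs : ∀ X, NT G X → u ∈ X → v ∉ X → ∃ g ∈ G.cut X, f g ≠ c) : HH G f c := by
  intro X hX
  by_cases huv : u ∈ X ↔ v ∈ X
  · exact ne_of_zero h.c0 hX.1 (h.sum_same huv)
  by_cases hu : u ∈ X
  · exact hs X hX hu fun hv => huv ⟨fun _ => hv, fun _ => hu⟩
  · have hv : v ∈ X := by
      by_contra hv
      exact huv ⟨fun c => absurd c hu, fun c => absurd c hv⟩
    have := hs Xᶜ hX.compl (mem_compl.2 hu) (by rw [mem_compl]; exact not_not.2 hv)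
    rwa [compl_cut] at this

theorem cut_submod (G : OrGraph V E) (X Z : Finset V) :
    (G.cut (X ∩ Z)).card + (G.cut (X ∪ Z)).card ≤ (G.cut X).card + (G.cut Z).card := submod G X Z

theorem recol2 {G : OrGraph V E} (hb : ∀ X : Finset V, (G.cut X).card ≠ 1) {f : E → K4} {u v : V}
    {c : K4} (h : Nr G f u v c) (huv : u ≠ v) (hH : HH G f c) :
    ∃ f', Nr G f' u v c ∧ OK G f' c u ∧ (OK G f c v → OK G f' c v) ∧ HH G f' c := by
  classical
  by_cases hu : OK G f c u
  · exact ⟨f, h, hu, fun hv => hv, hH⟩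
  by_cases hex : ∃ X, NT G X ∧ u ∈ X ∧ v ∉ X
  swap
  · obtain ⟨f', h', hu', hv'⟩ := recol h huv
    exact ⟨f', h', hu', hv', HH_of h' fun X hX hux hvx => absurd ⟨X, hX, hux, hvx⟩ hex⟩
  unfold OK at hu
  push Not at hu
  obtain ⟨hu3, hall⟩ := hu
  obtain ⟨X0, hX0⟩ := hex
  obtain ⟨Z, hZ, hmin⟩ := Finset.exists_min_image
    (univ.filter (fun X : Finset V => NT G X ∧ u ∈ X ∧ v ∉ X)) (fun X => X.card)
    ⟨X0, mem_filter.2 ⟨mem_univ _, hX0⟩⟩
  rw [mem_filter] at hZ
  obtain ⟨_, hZN, huZ, hvZ⟩ := hZ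
  obtain ⟨g1, hg1, hg1c⟩ := hH Z hZN
  set y := f g1 with hy
  have hy0 : y ≠ 0 := h.nz g1
  obtain ⟨Q, hQ1, hQ2, e0, he0, he0u⟩ := exists_even h huv hu3 hall hy0 hg1c
  have hQZ := no_cross h.nz h.c0 hg1c hZN.1 (h.sum_sep huZ hvZ) hg1 rfl hQ1 hQ2
  have hQin : ∀ e ∈ Q, (G.t e ∈ Z ↔ G.h e ∈ Z) := by
    intro e he
    by_contra hcon
    exact hQZ e he (mem_filter.2 ⟨mem_univ _, hcon⟩)
  set Q1 := Q.filter (fun e => G.t e ∈ Z) with hQ1def
  have hQ1in : ∀ e ∈ Q1, e ∈ Q ∧ G.t e ∈ Z ∧ G.h e ∈ Z := by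
    intro e he
    rw [hQ1def, mem_filter] at he
    exact ⟨he.1, he.2, (hQin e he.1).1 he.2⟩
  have hQ1e : ∀ x, Even (G.deg Q1 x) := by
    intro x
    by_cases hx : x ∈ Z
    · have h1 : G.deg Q1 x = G.deg Q x := by
        unfold OrGraph.deg
        congr 2
        · ext e
          rw [hQ1def, mem_filter, mem_filter, mem_filter]
          exact ⟨fun hh => ⟨hh.1.1, hh.2⟩, fun hh => ⟨⟨hh.1, hh.2.symm ▸ hx⟩, hh.2⟩⟩
        · ext e
          rw [hQ1def, mem_filter, mem_filter, mem_filter]
          exact ⟨fun hh => ⟨hh.1.1, hh.2⟩,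
            fun hh => ⟨⟨hh.1, (hQin e hh.1).2 (hh.2.symm ▸ hx)⟩, hh.2⟩⟩
      rw [h1]
      exact hQ1 x
    · have h1 : G.deg Q1 x = 0 := by
        unfold OrGraph.deg
        have h2 : Q1.filter (fun e => G.t e = x) = ∅ := by
          rw [Finset.filter_eq_empty_iff]
          intro e he hh
          exact hx (hh ▸ (hQ1in e he).2.1)
        have h3 : Q1.filter (fun e => G.h e = x) = ∅ := by
          rw [Finset.filter_eq_empty_iff]
          intro e he hh
          exact hx (hh ▸ (hQ1in e he).2.2)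
        rw [h2, h3]
        rfl
      rw [h1]
      exact Even.zero
  have he0Q1 : e0 ∈ Q1 := by
    rw [hQ1def, mem_filter]
    refine ⟨he0, ?_⟩
    have h1 := he0u
    rw [OrGraph.cut, mem_filter, mem_singleton, mem_singleton] at h1
    by_cases h2 : G.t e0 = u
    · rw [h2]; exact huZ
    · have h3 : G.h e0 = u := by
        by_contra h3
        exact h1.2 ⟨fun c => absurd c h2, fun c => absurd c h3⟩
      exact (hQin e0 he0).2 (h3 ▸ huZ)
  have hnr : Nr G (fun e => f e + if e ∈ Q1 then y else 0) u v c := by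
    refine ⟨fun e => ?_, h.c0, fun x => ?_⟩
    · show f e + (if e ∈ Q1 then y else 0) ≠ 0
      by_cases he : e ∈ Q1
      · rw [if_pos he]
        have h1 : ∀ a b : K4, a ≠ b → a + b ≠ 0 := by decide
        exact h1 _ _ (hQ2 e (hQ1in e he).1)
      · rw [if_neg he, add_zero]
        exact h.nz e
    · rw [bd_add G f (fun e => if e ∈ Q1 then y else 0) x, bd_const G Q1 y x (hQ1e x), add_zero,
        h.bd x]
  refine ⟨fun e => f e + if e ∈ Q1 then y else 0, hnr, fun _ => ?_, fun hv hv3 => ?_,
    HH_of hnr fun X hX hux hvx => ?_⟩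
  · refine ⟨e0, he0u, ?_⟩
    show f e0 + (if e0 ∈ Q1 then y else 0) ≠ c
    rw [if_pos he0Q1, hall e0 he0u]
    have h1 : ∀ a b : K4, b ≠ 0 → a + b ≠ a := by decide
    exact h1 _ _ hy0
  · obtain ⟨g, hg, hgc⟩ := hv hv3
    refine ⟨g, hg, ?_⟩
    show f g + (if g ∈ Q1 then y else 0) ≠ c
    rw [if_neg, add_zero]
    · exact hgc
    · intro hgQ
      have h1 := hQ1in g hgQ
      rw [OrGraph.cut, mem_filter, mem_singleton, mem_singleton] at hg
      by_cases h2 : G.t g = v
      · exact hvZ (h2 ▸ h1.2.1)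
      · have h3 : G.h g = v := by
          by_contra h3
          exact hg.2 ⟨fun c => absurd c h2, fun c => absurd c h3⟩
        exact hvZ (h3 ▸ h1.2.2)
  · by_contra hcon
    push Not at hcon
    have hcon' : ∀ g ∈ G.cut X, f g + (if g ∈ Q1 then y else 0) = c := hcon
    obtain ⟨e1, he1, he1c⟩ := hH X hX
    have hin : ∀ g ∈ G.cut X, f g ≠ c → g ∈ Q1 := by
      intro g hg hgc
      by_contra hn
      have := hcon' g hg
      rw [if_neg hn, add_zero] at this
      exact hgc this
    have hval : ∀ g ∈ G.cut X, g ∈ Q1 → f g = c + y := by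
      intro g hg hgQ
      have h1 := hcon' g hg
      rw [if_pos hgQ] at h1
      have h2 : ∀ a b d : K4, a + b = d → a = d + b := by decide
      exact h2 _ _ _ h1
    have he1Q := hin e1 he1 he1c
    obtain ⟨e2, he2, he2Q, h12⟩ : ∃ e2 ∈ G.cut X, e2 ∈ Q1 ∧ e1 ≠ e2 := by
      have h1 : 0 < (G.cut X ∩ Q1).card := Finset.card_pos.2 ⟨e1, mem_inter.2 ⟨he1, he1Q⟩⟩
      obtain ⟨n, hn⟩ := even_cut hQ1e X
      have h2 : 1 < (G.cut X ∩ Q1).card := by omega
      obtain ⟨e2, he2, hne⟩ := Finset.exists_mem_ne h2 e1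
      rw [mem_inter] at he2
      exact ⟨e2, he2.1, he2.2, Ne.symm hne⟩
    have hv1 := hval e1 he1 he1Q
    have hv2 := hval e2 he2 he2Q
    have hi1 := hQ1in e1 he1Q
    have hi2 := hQ1in e2 he2Q
    have hsub := cut_submod G Z X
    rw [hZN.1, hX.1] at hsub
    have huI : u ∈ Z ∩ X := mem_inter.2 ⟨huZ, hux⟩
    have hvI : v ∉ Z ∩ X := fun hh => hvZ (mem_inter.1 hh).1
    have huU : u ∈ Z ∪ X := mem_union.2 (Or.inl huZ)
    have hvU : v ∉ Z ∪ X := fun hh => (mem_union.1 hh).elim hvZ hvx
    have hsI := h.sum_sep huI hvI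
    have hsU := h.sum_sep huU hvU
    have hsX := h.sum_sep hux hvx
    have hsZ := h.sum_sep huZ hvZ
    have hposU : (G.cut (Z ∪ X)).card ≠ 0 := by
      intro h0
      rw [Finset.card_eq_zero] at h0
      rw [h0, Finset.sum_empty] at hsU
      exact h.c0 hsU.symm
    -- the two edges lie in the cut of the intersection
    have hmI : ∀ e, e ∈ G.cut X → G.t e ∈ Z ∧ G.h e ∈ Z → e ∈ G.cut (Z ∩ X) := by
      intro e he hez
      rw [OrGraph.cut, mem_filter] at he ⊢
      refine ⟨mem_univ _, ?_⟩
      rw [mem_inter, mem_inter]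
      have := he.2
      tauto
    have hm1 := hmI e1 he1 hi1.2
    have hm2 := hmI e2 he2 hi2.2
    have hU1 : ∀ e, G.t e ∈ Z ∧ G.h e ∈ Z → e ∉ G.cut (Z ∪ X) := by
      intro e hez he
      rw [OrGraph.cut, mem_filter, mem_union, mem_union] at he
      exact he.2 ⟨fun _ => Or.inl hez.2, fun _ => Or.inl hez.1⟩
    by_cases hU2 : (G.cut (Z ∪ X)).card = 2
    · obtain ⟨p, q, hpq, hUe⟩ := Finset.card_eq_two.1 hU2
      rw [hUe, Finset.sum_pair hpq] at hsU
      obtain ⟨g, hgU, hgv⟩ : ∃ g ∈ G.cut (Z ∪ X), f g = c + y := by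
        have h1 : ∀ a b c y : K4, a ≠ 0 → b ≠ 0 → y ≠ 0 → y ≠ c → c ≠ 0 → a + b = c →
            a = c + y ∨ b = c + y := by decide
        rcases h1 _ _ _ _ (h.nz p) (h.nz q) hy0 hg1c h.c0 hsU with h2 | h2
        · exact ⟨p, by rw [hUe]; simp, h2⟩
        · exact ⟨q, by rw [hUe]; simp, h2⟩
      have hgor : g ∈ G.cut Z ∨ g ∈ G.cut X := by
        rw [OrGraph.cut, mem_filter, mem_union, mem_union] at hgU
        rw [OrGraph.cut, OrGraph.cut, mem_filter, mem_filter]
        have := hgU.2
        by_contra hh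
        push Not at hh
        have h1 := hh.1 (mem_univ _)
        have h2 := hh.2 (mem_univ _)
        tauto
      rcases hgor with hg | hg
      · -- in the cut of `Z` the values are `c, y, y`
        have hgg : g ≠ g1 := by
          intro hh
          rw [hh, ← hy] at hgv
          have h1 : ∀ a b : K4, b ≠ 0 → a ≠ b + a := by decide
          exact h1 _ _ h.c0 hgv
        obtain ⟨g3, hg3, hn1, hn2⟩ : ∃ g3 ∈ G.cut Z, g3 ≠ g ∧ g3 ≠ g1 := by
          have h1 : (({g, g1} : Finset E)).card < (G.cut Z).card := by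
            rw [hZN.1, Finset.card_pair hgg]; norm_num
          obtain ⟨g3, hg3, hg3n⟩ := Finset.exists_mem_notMem_of_card_lt_card h1
          rw [mem_insert, mem_singleton, not_or] at hg3n
          exact ⟨g3, hg3, hg3n.1, hg3n.2⟩
        have hcard : ({g3, g, g1} : Finset E).card = 3 := by
          rw [Finset.card_insert_of_notMem, Finset.card_pair hgg]
          simp only [Finset.mem_insert, Finset.mem_singleton, not_or]
          exact ⟨hn1, hn2⟩
        have hsubZ : ({g3, g, g1} : Finset E) ⊆ G.cut Z := by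
          intro x hx
          simp only [Finset.mem_insert, Finset.mem_singleton] at hx
          rcases hx with rfl | rfl | rfl
          · exact hg3
          · exact hg
          · exact hg1
        have heq := Finset.eq_of_subset_of_card_le hsubZ (by rw [hcard, hZN.1])
        rw [← heq, Finset.sum_insert, Finset.sum_pair hgg, hgv, ← hy] at hsZ
        · have h1 : ∀ a b d : K4, a + (d + b + b) = d → a = 0 := by decide
          exact h.nz g3 (h1 _ _ _ hsZ)
        · simp only [Finset.mem_insert, Finset.mem_singleton, not_or]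
          exact ⟨hn1, hn2⟩
      · -- in the cut of `X` the edges `e1, e2` have this value already
        have hn1 : g ≠ e1 := fun hh => hU1 e1 hi1.2 (hh ▸ hgU)
        have hn2 : g ≠ e2 := fun hh => hU1 e2 hi2.2 (hh ▸ hgU)
        have hcard : ({g, e1, e2} : Finset E).card = 3 := by
          rw [Finset.card_insert_of_notMem, Finset.card_pair h12]
          simp only [Finset.mem_insert, Finset.mem_singleton, not_or]
          exact ⟨hn1, hn2⟩
        have hsubX : ({g, e1, e2} : Finset E) ⊆ G.cut X := by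
          intro x hx
          simp only [Finset.mem_insert, Finset.mem_singleton] at hx
          rcases hx with rfl | rfl | rfl
          · exact hg
          · exact he1
          · exact he2
        have heq := Finset.eq_of_subset_of_card_le hsubX (by rw [hcard, hX.1])
        rw [← heq, Finset.sum_insert, Finset.sum_pair h12, hgv, hv1, hv2] at hsX
        · have h1 : ∀ d b : K4, b ≠ 0 → (d + b) + ((d + b) + (d + b)) ≠ d := by decide
          exact h1 _ _ hy0 hsX
        · simp only [Finset.mem_insert, Finset.mem_singleton, not_or]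
          exact ⟨hn1, hn2⟩
    · have hU1' := hb (Z ∪ X)
      have hI3 : (G.cut (Z ∩ X)).card ≤ 3 := by omega
      have hpair : ({e1, e2} : Finset E) ⊆ G.cut (Z ∩ X) := by
        intro x hx
        rw [mem_insert, mem_singleton] at hx
        rcases hx with rfl | rfl
        · exact hm1
        · exact hm2
      have hI2 : 2 ≤ (G.cut (Z ∩ X)).card := by
        rw [← Finset.card_pair h12]
        exact Finset.card_le_card hpair
      by_cases hI2' : (G.cut (Z ∩ X)).card = 2
      · have heq := Finset.eq_of_subset_of_card_le hpair (by rw [hI2', Finset.card_pair h12])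
        rw [← heq, Finset.sum_pair h12, hv1, hv2, k4_add_self] at hsI
        exact h.c0 hsI.symm
      · have hI3' : (G.cut (Z ∩ X)).card = 3 := by omega
        by_cases hstar : ∃ z, G.cut (Z ∩ X) = G.cut {z}
        · obtain ⟨z, hz⟩ := hstar
          by_cases hzu : z = u
          · rw [hz, hzu] at hm1
            exact he1c (hall e1 hm1)
          by_cases hzv : z = v
          · rw [hzv] at hz
            apply hZN.2 v
            symm
            apply Finset.eq_of_subset_of_card_le
            · intro e he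
              have h1 := he
              rw [← hz] at h1
              rw [OrGraph.cut, mem_filter, mem_inter, mem_inter] at h1
              rw [OrGraph.cut, mem_filter, mem_singleton, mem_singleton] at he
              rw [OrGraph.cut, mem_filter]
              refine ⟨mem_univ _, fun hh => ?_⟩
              by_cases h2 : G.t e = v
              · have h3 : G.t e ∉ Z := by rw [h2]; exact hvZ
                have h4 : G.h e ∉ Z := fun h4 => h3 (hh.2 h4)
                exact h1.2 ⟨fun h5 => absurd h5.1 h3, fun h5 => absurd h5.1 h4⟩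
              · have h3 : G.h e = v := by
                  by_contra h3
                  exact he.2 ⟨fun c => absurd c h2, fun c => absurd c h3⟩
                have h4 : G.h e ∉ Z := by rw [h3]; exact hvZ
                have h5 : G.t e ∉ Z := fun h5 => h4 (hh.1 h5)
                exact h1.2 ⟨fun h6 => absurd h6.1 h5, fun h6 => absurd h6.1 h4⟩
            · rw [hZN.1, ← hz, hI3']
          · rw [hz, ← sum_bd, Finset.sum_singleton, h.bd z, if_neg (fun hh => hzu hh.symm),
              if_neg (fun hh => hzv hh.symm), add_zero] at hsI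
            exact h.c0 hsI.symm
        · push Not at hstar
          have h1 := hmin (Z ∩ X) (mem_filter.2 ⟨mem_univ _, ⟨hI3', hstar⟩, huI, hvI⟩)
          have h2 : Z ∩ X = Z := Finset.eq_of_subset_of_card_le Finset.inter_subset_left h1
          have h3 : G.t e1 ∈ X := (mem_inter.1 (h2.symm ▸ hi1.2.1 : G.t e1 ∈ Z ∩ X)).2
          have h4 : G.h e1 ∈ X := (mem_inter.1 (h2.symm ▸ hi1.2.2 : G.h e1 ∈ Z ∩ X)).2
          rw [OrGraph.cut, mem_filter] at he1
          exact he1.2 ⟨fun _ => h4, fun _ => h3⟩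

theorem base2 {G : OrGraph V E} (hb : ∀ X : Finset V, (G.cut X).card ≠ 1) {f : E → K4} {u v : V}
    {c : K4} (h : Nr G f u v c) (hH : HH G f c) :
    ∃ φ₂ φ₄ : E → ℤ, G.IsHalfFlowPair φ₂ φ₄ := by
  by_cases huv : u = v
  · refine pair_of hb h fun X hX => ne_of_zero h.c0 hX (h.sum_same (by rw [huv]))
  · obtain ⟨f1, h1, hu1, _, hH1⟩ := recol2 hb h huv hH
    obtain ⟨f2, h2, hv2, hu2, hH2⟩ := recol2 hb h1.symm (Ne.symm huv) hH1
    refine pair_of hb h2.symm fun X hX => ?_
    by_cases hstar : ∃ z, G.cut X = G.cut {z}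
    · obtain ⟨z, hz⟩ := hstar
      rw [hz] at hX ⊢
      by_cases hzu : z = u
      · rw [hzu] at hX ⊢
        exact hu2 hu1 hX
      by_cases hzv : z = v
      · rw [hzv] at hX ⊢
        exact hv2 hX
      refine ne_of_zero h.c0 hX ?_
      rw [Finset.sum_singleton, h2.bd z, if_neg (fun hh => hzv hh.symm),
        if_neg (fun hh => hzu hh.symm), add_zero]
    · push Not at hstar
      exact hH2 X ⟨hX, hstar⟩

end Pool.Agent.TH499.NF
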