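import Pool.Agent.H179R3.HF.Nearly

set_option autoImplicit false
set_option linter.unusedSectionVars false

/-! # Graphs which get a nowhere-zero 4-flow by adding an edge: basic lemmas -/

namespace Pool.Agent.TH499.NF
open Finset Pool.Agent.H160R2.HF Pool.Agent.H179R3.HF

variable {V E : Type*} [Fintype V] [Fintype E] [DecidableEq V] [DecidableEq E]

/-- boundary of a function with values in the Klein four-group -/
def bd (G : OrGraph V E) (f : E → K4) (v : V) : K4 :=
  (∑ e with G.t e = v, f e) + ∑ e with G.h e = v, f e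

theorem bd_eq (G : OrGraph V E) (f : E → K4) (v : V) :
    bd G f v = ∑ e, ((if G.t e = v then f e else 0) + (if G.h e = v then f e else 0)) := by
  unfold bd
  rw [Finset.sum_add_distrib, Finset.sum_filter, Finset.sum_filter]

/-- image of a graph under a map of the vertices -/
def mp (G : OrGraph V E) (ρ : V → V) : OrGraph V E := ⟨fun e => ρ (G.t e), fun e => ρ (G.h e)⟩

theorem bd_mp (G : OrGraph V E) (ρ : V → V) (f : E → K4) (y : V) :
    bd (mp G ρ) f y = ∑ x with ρ x = y, bd G f x := by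
  simp_rw [bd_eq]
  rw [Finset.sum_comm]
  refine Finset.sum_congr rfl fun e _ => ?_
  rw [Finset.sum_add_distrib]
  have h1 : ∀ z : V, ∑ x with ρ x = y, (if z = x then f e else 0) =
      if ρ z = y then f e else 0 := by
    intro z
    rw [Finset.sum_ite_eq]
    simp
  rw [h1, h1]
  rfl

theorem cut_mp (G : OrGraph V E) (ρ : V → V) (Y : Finset V) :
    (mp G ρ).cut Y = G.cut (univ.filter (fun x => ρ x ∈ Y)) := by
  ext e
  unfold OrGraph.cut mp
  simp only [mem_filter, mem_univ, true_and]

theorem sum_bd (G : OrGraph V E) (f : E → K4) (X : Finset V) :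
    ∑ v ∈ X, bd G f v = ∑ e ∈ G.cut X, f e := by
  simp_rw [bd_eq]
  rw [Finset.sum_comm, OrGraph.cut, Finset.sum_filter]
  refine Finset.sum_congr rfl fun e _ => ?_
  rw [Finset.sum_add_distrib, Finset.sum_ite_eq, Finset.sum_ite_eq]
  have := k4_add_self (f e)
  by_cases a : G.t e ∈ X <;> by_cases b : G.h e ∈ X <;> simp [a, b, this]

/-- the functional vanishing exactly on `0` and `c` -/
def om (c : K4) : K4 →+ ZMod 2 where
  toFun := fun x => c.1 * x.2 + c.2 * x.1
  map_zero' := by simp
  map_add' := fun x y => by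
    show c.1 * (x.2 + y.2) + c.2 * (x.1 + y.1) = _
    ring

theorem om_ne : ∀ c x : K4, c ≠ 0 → (om c x ≠ 0 ↔ x ≠ 0 ∧ x ≠ c) := by
  have h : ∀ c x : K4, c ≠ 0 → (c.1 * x.2 + c.2 * x.1 ≠ 0 ↔ x ≠ 0 ∧ x ≠ c) := by decide
  exact h

theorem om_self : ∀ c : K4, om c c = 0 := by
  have h : ∀ c : K4, c.1 * c.2 + c.2 * c.1 = 0 := by decide
  exact h

theorem deg_cast (G : OrGraph V E) (π : K4 →+ ZMod 2) (f : E → K4) (v : V) :
    ((G.deg (univ.filter (fun g => π (f g) ≠ 0)) v : ℕ) : ZMod 2) = π (bd G f v) := by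
  unfold bd
  rw [map_add, map_sum, map_sum, sum_eq_card, sum_eq_card]
  have h2 : ∀ k : E → V, (univ.filter (fun g => k g = v)).filter (fun g => π (f g) ≠ 0) =
      (univ.filter (fun g => π (f g) ≠ 0)).filter (fun g => k g = v) := by
    intro k
    rw [Finset.filter_filter, Finset.filter_filter]
    refine Finset.filter_congr fun g _ => ?_
    exact and_comm
  rw [h2, h2]
  unfold OrGraph.deg
  push_cast
  rfl

/-- sufficiency of the criterion for an even set whose complement is contained in a set which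
becomes even by adding one edge -/
theorem pair_gen (G : OrGraph V E) (hb : ∀ X : Finset V, (G.cut X).card ≠ 1) (F K : Finset E)
    (hF : ∀ v, Even (G.deg F v)) (hFK : ∀ g, g ∈ F ∨ g ∈ K) (u v : V)
    (hK : ∀ w, Even (G.deg K w + (if u = w then 1 else 0) + (if v = w then 1 else 0)))
    (h3 : ∀ X : Finset V, (G.cut X).card = 3 → (G.cut X ∩ F).Nonempty) :
    ∃ φ₂ φ₄ : E → ℤ, G.IsHalfFlowPair φ₂ φ₄ := by
  classical
  let t' : Option E → V := fun o => o.elim u G.t
  let h' : Option E → V := fun o => o.elim v G.h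
  obtain ⟨ψ, hψ1, hψ2⟩ := eulerian t' h' (insertNone K) (by
    intro w
    rw [Finset.card_filter, Finset.card_filter, Finset.sum_insertNone, Finset.sum_insertNone]
    change Even (((if u = w then 1 else 0) + ∑ x ∈ K, if G.t x = w then 1 else 0) +
      ((if v = w then 1 else 0) + ∑ x ∈ K, if G.h x = w then 1 else 0))
    rw [← Finset.card_filter, ← Finset.card_filter]
    have h1 := hK w
    unfold OrGraph.deg at h1
    have h2 : (if u = w then 1 else 0) + (K.filter (fun e => G.t e = w)).card +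
        ((if v = w then 1 else 0) + (K.filter (fun e => G.h e = w)).card) =
        (K.filter (fun e => G.t e = w)).card + (K.filter (fun e => G.h e = w)).card +
          (if u = w then 1 else 0) + (if v = w then 1 else 0) := by ring
    rw [h2]
    exact h1)
  have hnone : ψ none = 1 ∨ ψ none = -1 := (hψ1 none).1 (by simp)
  obtain ⟨φ₂, φ₄, h, _⟩ : ∃ φ₂ φ₄ : E → ℤ, G.IsHalfFlowPair φ₂ φ₄ ∧ ∀ e, φ₂ e ≠ 0 ↔ e ∈ F := by
    refine exists_pair_gen G hb F hF (fun g => ψ (some g)) ?_ ?_ ?_ h3
    · intro g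
      by_cases hg : g ∈ K
      · rcases (hψ1 (some g)).1 (by simpa using hg) with h | h
        · left; exact h
        · right; left; exact h
      · right; right; exact (hψ1 (some g)).2 (by simpa using hg)
    · intro g hg
      have hgK : g ∈ K := (hFK g).resolve_left hg
      rcases (hψ1 (some g)).1 (by simpa using hgK) with h | h <;> rw [h] <;> decide
    · intro X
      have h1 : ∑ w ∈ X, net t' h' ψ w = 0 := Finset.sum_eq_zero fun w _ => hψ2 w
      rw [net_sum, Fintype.sum_option] at h1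
      change ((if u ∈ X then ψ none else 0) - (if v ∈ X then ψ none else 0)) +
        ∑ g, ((if G.t g ∈ X then ψ (some g) else 0) -
          (if G.h g ∈ X then ψ (some g) else 0)) = 0 at h1
      rw [net_sum]
      have h2 : ∑ g, ((if G.t g ∈ X then ψ (some g) else 0) -
          (if G.h g ∈ X then ψ (some g) else 0)) =
          (if v ∈ X then ψ none else 0) - (if u ∈ X then ψ none else 0) := by linarith
      rw [h2]
      rcases hnone with h | h <;> rw [h] <;> split_ifs <;> simp
  exact ⟨φ₂, φ₄, h⟩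

/-- `f` is nowhere zero and its boundary is `c` at `u` and at `v` -/
structure Nr (G : OrGraph V E) (f : E → K4) (u v : V) (c : K4) : Prop where
  nz : ∀ e, f e ≠ 0
  c0 : c ≠ 0
  bd : ∀ x, bd G f x = (if u = x then c else 0) + (if v = x then c else 0)

theorem exists_other : ∀ c : K4, ∃ b : K4, b ≠ 0 ∧ b ≠ c := by decide

theorem z2_ne : ∀ x : ZMod 2, x ≠ 0 → x = 1 := by decide

theorem pair_of {G : OrGraph V E} (hb : ∀ X : Finset V, (G.cut X).card ≠ 1) {f : E → K4} {u v : V}
    {c : K4} (h : Nr G f u v c) (h3 : ∀ X : Finset V, (G.cut X).card = 3 → ∃ g ∈ G.cut X, f g ≠ c) :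
    ∃ φ₂ φ₄ : E → ℤ, G.IsHalfFlowPair φ₂ φ₄ := by
  classical
  obtain ⟨b, hb0, hbc⟩ := exists_other c
  have hbc1 : om b c = 1 := z2_ne _ ((om_ne b c hb0).2 ⟨h.c0, Ne.symm hbc⟩)
  refine pair_gen G hb (univ.filter (fun g => om c (f g) ≠ 0))
    (univ.filter (fun g => om b (f g) ≠ 0)) (fun x => ?_) (fun g => ?_) u v (fun x => ?_)
    (fun X hX => ?_)
  · rw [← ZMod.natCast_eq_zero_iff_even, deg_cast, h.bd x]
    split_ifs <;> simp [om_self]
  · by_cases hg : f g = c
    · right
      rw [mem_filter, hg, hbc1]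
      exact ⟨mem_univ _, one_ne_zero⟩
    · left
      rw [mem_filter, om_ne c _ h.c0]
      exact ⟨mem_univ _, h.nz g, hg⟩
  · rw [← ZMod.natCast_eq_zero_iff_even]
    push_cast
    rw [deg_cast, h.bd x]
    have h2 : (1 : ZMod 2) + 1 = 0 := by decide
    split_ifs <;> simp [hbc1, h2]
  · obtain ⟨g, hg, hgc⟩ := h3 X hX
    refine ⟨g, mem_inter.2 ⟨hg, ?_⟩⟩
    rw [mem_filter, om_ne c _ h.c0]
    exact ⟨mem_univ _, h.nz g, hgc⟩

end Pool.Agent.TH499.NF
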