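import Pool.Agent.TH499.NF.Main
import Pool.Agent.H179R3.HF.MinusVertex

set_option autoImplicit false
set_option linter.unusedSectionVars false

/-! # Spanning trails and cubic graphs of oddness at most two -/

namespace Pool.Agent.TH499.NF
open Finset Pool.Agent.H160R2.HF
open Pool.Agent.H179R3.HF (K4 IsZ path_join bd_sum bd_mul bd_indicator z2_add_self)

universe u v

variable {V : Type u} {E : Type v} [Fintype V] [Fintype E] [DecidableEq V] [DecidableEq E]

theorem Tjoin_all (G : OrGraph V E) (C : Finset E) (r : V)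
    (hconn : ∀ x, (G.sub C).Reachable x r) (T : V → ZMod 2) (hT : ∑ w, T w = 0) :
    ∃ j : E → ZMod 2, (∀ g, g ∉ C → j g = 0) ∧ ∀ w, Pool.Agent.H179R3.HF.bd G j w = T w := by
  choose jw hj1 hj2 using fun w => path_join G C (hconn w)
  refine ⟨fun g => ∑ w, T w * jw w g, fun g hg => ?_, fun x => ?_⟩
  · exact Finset.sum_eq_zero fun w _ => by rw [hj1 w g hg, mul_zero]
  · rw [bd_sum G univ (fun w g => T w * jw w g) x]
    have h1 : ∀ w, Pool.Agent.H179R3.HF.bd G (fun g => T w * jw w g) x =
        T w * (if w = x then 1 else 0) + T w * (if r = x then 1 else 0) := by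
      intro w
      rw [bd_mul, hj2, mul_add]
    rw [Finset.sum_congr rfl fun w _ => h1 w, Finset.sum_add_distrib, ← Finset.sum_mul, hT,
      zero_mul, add_zero]
    simp

theorem deg_insertNone (G : OrGraph V E) (u v : V) (K : Finset E) (w : V) :
    (addEdge G u v).deg (insertNone K) w =
      G.deg K w + (if u = w then 1 else 0) + (if v = w then 1 else 0) := by
  unfold OrGraph.deg
  rw [Finset.card_filter, Finset.card_filter, Finset.sum_insertNone, Finset.sum_insertNone]
  change ((if u = w then 1 else 0) + ∑ x ∈ K, if G.t x = w then 1 else 0) +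
    ((if v = w then 1 else 0) + ∑ x ∈ K, if G.h x = w then 1 else 0) = _
  rw [← Finset.card_filter, ← Finset.card_filter]
  ring

theorem deg_some (G : OrGraph V E) (u v : V) (F : Finset E) (w : V) :
    (addEdge G u v).deg (F.map Function.Embedding.some) w = G.deg F w := by
  unfold OrGraph.deg
  rw [Finset.card_filter, Finset.card_filter, Finset.sum_map, Finset.sum_map, Finset.card_filter,
    Finset.card_filter]
  rfl

/-- a spanning trail gives a nowhere-zero flow after adding an edge -/
theorem trail_flow (G : OrGraph V E) (u v : V) (T : Finset E)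
    (hT : ∀ w, Even (G.deg T w + (if u = w then 1 else 0) + (if v = w then 1 else 0)))
    (hconn : ∀ x y, (G.sub T).Reachable x y) :
    ∃ f : Option E → K4, IsZ (addEdge G u v) f ∧ ∀ o, f o ≠ 0 := by
  classical
  have hle : G.sub T ≤ (addEdge G u v).sub (insertNone T) := by
    intro x y hxy
    unfold OrGraph.sub at hxy ⊢
    rw [SimpleGraph.fromRel_adj] at hxy ⊢
    refine ⟨hxy.1, ?_⟩
    rcases hxy.2 with ⟨e, he, h1, h2⟩ | ⟨e, he, h1, h2⟩
    · exact Or.inl ⟨some e, by simpa using he, h1, h2⟩
    · exact Or.inr ⟨some e, by simpa using he, h1, h2⟩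
  obtain ⟨j, hj, hb⟩ := Tjoin_all (addEdge G u v) (insertNone T) u
    (fun x => (hconn x u).mono hle)
    (fun x => Pool.Agent.H179R3.HF.bd (addEdge G u v)
      (fun g => if g ∈ (insertNone T)ᶜ then 1 else 0) x)
    (Pool.Agent.H179R3.HF.sum_bd (addEdge G u v) _)
  refine ⟨fun g => ((if g ∈ insertNone T then 1 else 0),
    (if g ∈ (insertNone T)ᶜ then 1 else 0) + j g), ?_, ?_⟩
  · intro x
    refine Prod.ext ?_ ?_
    · rw [Prod.fst_add, Prod.fst_sum, Prod.fst_sum]
      have h1 := bd_indicator (addEdge G u v) (insertNone T) x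
      rw [deg_insertNone, (ZMod.natCast_eq_zero_iff_even).2 (hT x)] at h1
      exact h1
    · rw [Prod.snd_add, Prod.snd_sum, Prod.snd_sum]
      have h1 := Pool.Agent.H179R3.HF.bd_add (addEdge G u v)
        (fun g => if g ∈ (insertNone T)ᶜ then 1 else 0) j x
      rw [hb x, z2_add_self] at h1
      exact h1
  · intro g hg
    have h1 : (if g ∈ insertNone T then (1 : ZMod 2) else 0) = 0 := congrArg Prod.fst hg
    have h2 : (if g ∈ (insertNone T)ᶜ then (1 : ZMod 2) else 0) + j g = 0 := congrArg Prod.snd hg
    by_cases hgC : g ∈ insertNone T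
    · rw [if_pos hgC] at h1
      exact one_ne_zero h1
    · rw [if_pos (mem_compl.2 hgC), hj g hgC, add_zero] at h2
      exact one_ne_zero h2

/-- Graphs with a spanning trail: it suffices that every 3-edge-cut which is not the star of a vertex
has a side which is colourable. -/
theorem trail (G : OrGraph V E) (hB : G.Bridgeless) (u v : V) (T : Finset E)
    (hT : ∀ w, Even (G.deg T w + (if u = w then 1 else 0) + (if v = w then 1 else 0)))
    (hconn : ∀ x y, (G.sub T).Reachable x y)
    (h3 : ∀ X : Finset V, (G.cut X).card = 3 → (∀ z, G.cut X ≠ G.cut {z}) →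
      NZ4 (contr G X) ∨ NZ4 (contr G Xᶜ)) :
    ∃ φ₂ φ₄ : E → ℤ, G.IsHalfFlowPair φ₂ φ₄ := by
  obtain ⟨f, hf, hz⟩ := trail_flow G u v T hT hconn
  refine final G hB u v f hf hz fun X hX hX' => ?_
  rcases h3 X hX hX' with h | h
  · exact Or.inl h
  · exact Or.inr (Or.inl h)

theorem deg_union (G : OrGraph V E) {A B : Finset E} (h : Disjoint A B) (w : V) :
    G.deg (A ∪ B) w = G.deg A w + G.deg B w := by
  unfold OrGraph.deg
  rw [Finset.filter_union, Finset.filter_union,
    Finset.card_union_of_disjoint (Finset.disjoint_filter_filter h),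
    Finset.card_union_of_disjoint (Finset.disjoint_filter_filter h)]
  ring

theorem cubic_flow (G : OrGraph V E) (hc : G.Cubic) (F : Finset E) (hF : G.IsTwoFactor F)
    (hodd : G.oddCount F ≤ 2) (v0 : V) :
    ∃ (u v : V) (f : Option E → K4), IsZ (addEdge G u v) f ∧ (∀ o, f o ≠ 0) ∧
      ∀ e, e ∉ F ↔ f (some e) = f none := by
  classical
  obtain ⟨B, hBF, hB1, hB2⟩ := G.exists_matching F hF hodd
  have hdis : Disjoint Fᶜ B := Finset.disjoint_of_subset_right hBF disjoint_compl_left
  have hFc : ∀ w, G.deg Fᶜ w = 1 := by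
    intro w
    have h1 := deg_union G (disjoint_compl_right (a := F)) w
    rw [Finset.union_compl] at h1
    have h2 := hF w
    have h3 := hc w
    omega
  have hK : ∀ w, G.deg (Fᶜ ∪ B) w = 1 + G.deg B w := fun w => by
    rw [deg_union G hdis, hFc]
  -- parity
  have hcu : G.cut univ = ∅ := by
    rw [OrGraph.cut, Finset.filter_eq_empty_iff]
    intro e _ h
    exact h ⟨fun _ => mem_univ _, fun _ => mem_univ _⟩
  have hVe : Even (Fintype.card V) := by
    have h1 := G.handshake univ univ
    rw [hcu, Finset.sum_congr rfl fun w _ => hc w, Finset.sum_const, smul_eq_mul,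
      Finset.empty_inter, Finset.card_empty, add_zero, Finset.card_univ] at h1
    rw [Nat.even_iff]
    omega
  have hBe : Even (∑ w, G.deg B w) := by
    have h1 := G.handshake B univ
    rw [hcu, Finset.empty_inter, Finset.card_empty, add_zero] at h1
    rw [h1]
    exact even_two_mul _
  have hsum : ∑ w, G.deg B w + (univ.filter (fun w => G.deg B w = 0)).card = Fintype.card V := by
    rw [Finset.card_filter, ← Finset.sum_add_distrib, ← Finset.card_univ, Finset.card_eq_sum_ones]
    refine Finset.sum_congr rfl fun w _ => ?_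
    have := hB1 w
    split_ifs with h <;> omega
  obtain ⟨u, v, huv⟩ : ∃ u v : V, ∀ w, Even (G.deg (Fᶜ ∪ B) w + (if u = w then 1 else 0) +
      (if v = w then 1 else 0)) := by
    have h0 : Even (univ.filter (fun w => G.deg B w = 0)).card := by
      rw [← hsum] at hVe
      exact (Nat.even_add.1 hVe).1 hBe
    by_cases hz : (univ.filter (fun w => G.deg B w = 0)).card = 0
    · refine ⟨v0, v0, fun w => ?_⟩
      rw [Finset.card_eq_zero, Finset.filter_eq_empty_iff] at hz
      have h1 := hz (mem_univ w)
      have h2 := hB1 w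
      rw [hK, Nat.even_iff]
      split_ifs <;> omega
    · have h2 : (univ.filter (fun w => G.deg B w = 0)).card = 2 := by
        obtain ⟨n, hn⟩ := h0
        omega
      obtain ⟨a, b, hab, hS⟩ := Finset.card_eq_two.1 h2
      refine ⟨a, b, fun w => ?_⟩
      have hiff : G.deg B w = 0 ↔ (w = a ∨ w = b) := by
        have h3 : w ∈ univ.filter (fun w => G.deg B w = 0) ↔ w ∈ ({a, b} : Finset V) := by rw [hS]
        simpa using h3
      have h4 := hB1 w
      rw [hK, Nat.even_iff]
      by_cases ha : a = w
      · have hb : ¬ b = w := fun hb => hab (ha.trans hb.symm)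
        rw [if_pos ha, if_neg hb, hiff.2 (Or.inl ha.symm)]
      · by_cases hb : b = w
        · rw [if_neg ha, if_pos hb, hiff.2 (Or.inr hb.symm)]
        · have h5 : G.deg B w ≠ 0 := fun h => (hiff.1 h).elim (fun h => ha h.symm)
            fun h => hb h.symm
          rw [if_neg ha, if_neg hb]
          omega
  refine ⟨u, v, fun o => ((if o ∈ F.map Function.Embedding.some then 1 else 0),
    (if o ∈ insertNone (Fᶜ ∪ B) then 1 else 0)), ?_, ?_, ?_⟩
  · intro x
    refine Prod.ext ?_ ?_
    · rw [Prod.fst_add, Prod.fst_sum, Prod.fst_sum]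
      have h1 := bd_indicator (addEdge G u v) (F.map Function.Embedding.some) x
      rw [deg_some, hF x] at h1
      refine h1.trans ?_
      decide
    · rw [Prod.snd_add, Prod.snd_sum, Prod.snd_sum]
      have h1 := bd_indicator (addEdge G u v) (insertNone (Fᶜ ∪ B)) x
      rw [deg_insertNone, (ZMod.natCast_eq_zero_iff_even).2 (huv x)] at h1
      exact h1
  · intro o ho
    have h1 : (if o ∈ F.map Function.Embedding.some then (1 : ZMod 2) else 0) = 0 :=
      congrArg Prod.fst ho
    have h2 : (if o ∈ insertNone (Fᶜ ∪ B) then (1 : ZMod 2) else 0) = 0 := congrArg Prod.snd ho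
    cases o with
    | none => simp at h2
    | some e =>
      by_cases he : e ∈ F
      · rw [if_pos (by simpa using he)] at h1
        exact one_ne_zero h1
      · rw [if_pos (by simp [he])] at h2
        exact one_ne_zero h2
  · intro e
    show e ∉ F ↔ ((if some e ∈ F.map Function.Embedding.some then (1 : ZMod 2) else 0),
      (if some e ∈ insertNone (Fᶜ ∪ B) then (1 : ZMod 2) else 0)) =
      ((if none ∈ F.map Function.Embedding.some then (1 : ZMod 2) else 0),
      (if none ∈ insertNone (Fᶜ ∪ B) then (1 : ZMod 2) else 0))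
    by_cases he : e ∈ F
    · simp [he]
    · simp [he]

/-- Cubic graphs with a 2-factor with at most two odd components: it suffices that every 3-edge-cut
which is disjoint from the 2-factor has a side which is colourable. -/
theorem cubic (G : OrGraph V E) (hB : G.Bridgeless) (hc : G.Cubic) (F : Finset E)
    (hF : G.IsTwoFactor F) (hodd : G.oddCount F ≤ 2)
    (hC : ∀ X : Finset V, (G.cut X).card = 3 → (∀ e ∈ G.cut X, e ∉ F) →
      NZ4 (contr G X) ∨ NZ4 (contr G Xᶜ)) :
    ∃ φ₂ φ₄ : E → ℤ, G.IsHalfFlowPair φ₂ φ₄ := by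
  classical
  rcases isEmpty_or_nonempty V with hV | ⟨⟨v0⟩⟩
  · have hE : IsEmpty E := ⟨fun e => hV.elim (G.t e)⟩
    exact ⟨fun _ => 0, fun _ => 0, ⟨fun e => hE.elim e, fun v => hV.elim v⟩,
      ⟨fun e => hE.elim e, fun v => hV.elim v⟩, fun e => hE.elim e⟩
  obtain ⟨u, v, f, hf, hz, hfF⟩ := cubic_flow G hc F hF hodd v0
  refine final G hB u v f hf hz fun X hX _ => ?_
  by_cases h1 : ∀ e ∈ G.cut X, e ∉ F
  · rcases hC X hX h1 with h2 | h2
    · exact Or.inl h2
    · exact Or.inr (Or.inl h2)
  · right; right
    push Not at h1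
    obtain ⟨e, he, heF⟩ := h1
    have hne : f (some e) ≠ f none := fun h => (hfF e).2 h heF
    by_contra hcon
    push Not at hcon
    -- all values are equal to `f (some e)`
    have hnr := nr_of hf hz
    obtain ⟨g, hg, hgn⟩ : ∃ g ∈ G.cut X, f (some g) = f none ∨ f (some g) ≠ f (some e) := by
      by_contra hh
      push Not at hh
      have h2 : ∑ g ∈ G.cut X, f (some g) = f (some e) := by
        rw [Finset.sum_congr rfl fun g hg => (hh g hg).2, Finset.sum_const, hX]
        have h3 : ∀ a : K4, (3 : ℕ) • a = a := by decide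
        exact h3 _
      by_cases hs : (u ∈ X ↔ v ∈ X)
      · have h3 := hnr.sum_same hs
        rw [sum_bd] at h3
        exact hz _ (h2.symm.trans h3)
      · by_cases hu : u ∈ X
        · have h3 := hnr.sum_sep hu fun hv => hs ⟨fun _ => hv, fun _ => hu⟩
          exact hne (h2.symm.trans h3)
        · have hv : v ∈ X := by
            by_contra hv
            exact hs ⟨fun c => absurd c hu, fun c => absurd c hv⟩
          have h3 := hnr.symm.sum_sep hv hu
          exact hne (h2.symm.trans h3)
    rcases hgn with h2 | h2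
    · exact hne ((hcon e he g hg).trans h2)
    · exact h2 (hcon e he g hg).symm

end Pool.Agent.TH499.NF
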