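import Pool.Agent.TH499.NF.Basic

set_option autoImplicit false
set_option linter.unusedSectionVars false

/-! # Recolouring at a vertex of degree three -/

namespace Pool.Agent.TH499.NF
open Finset Pool.Agent.H160R2.HF Pool.Agent.H179R3.HF

variable {V E : Type*} [Fintype V] [Fintype E] [DecidableEq V] [DecidableEq E]

/-- an even set of edges with values different from `y` which contains an edge at `u` -/
theorem exists_even {G : OrGraph V E} {f : E → K4} {u v : V} {c : K4} (h : Nr G f u v c)
    (huv : u ≠ v) (hu : (G.cut {u}).card = 3) (hall : ∀ g ∈ G.cut {u}, f g = c) {y : K4}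
    (hy0 : y ≠ 0) (hyc : y ≠ c) :
    ∃ Q : Finset E, (∀ x, Even (G.deg Q x)) ∧ (∀ e ∈ Q, f e ≠ y) ∧ ∃ e ∈ Q, e ∈ G.cut {u} := by
  classical
  let t' : Option E → V := fun o => o.elim u G.t
  let h' : Option E → V := fun o => o.elim v G.h
  set K : Finset E := univ.filter (fun g => om y (f g) ≠ 0) with hKdef
  have hyc1 : om y c = 1 := z2_ne _ ((om_ne y c hy0).2 ⟨h.c0, Ne.symm hyc⟩)
  have hK : ∀ w, Even (G.deg K w + (if u = w then 1 else 0) + (if v = w then 1 else 0)) := by
    intro x
    rw [← ZMod.natCast_eq_zero_iff_even]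
    push_cast
    rw [hKdef, deg_cast, h.bd x]
    have h2 : (1 : ZMod 2) + 1 = 0 := by decide
    split_ifs <;> simp [hyc1, h2]
  obtain ⟨ψ, hψ1, hψ2⟩ := eulerian t' h' (insertNone K) (by
    intro w
    rw [Finset.card_filter, Finset.card_filter, Finset.sum_insertNone, Finset.sum_insertNone]
    change Even (((if u = w then 1 else 0) + ∑ x ∈ K, if G.t x = w then 1 else 0) +
      ((if v = w then 1 else 0) + ∑ x ∈ K, if G.h x = w then 1 else 0))
    rw [← Finset.card_filter, ← Finset.card_filter]
    have h1 := hK w
    unfold OrGraph.deg at h1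
    have h2 : (if u = w then 1 else 0) + (K.filter (fun e => G.t e = w)).card +
        ((if v = w then 1 else 0) + (K.filter (fun e => G.h e = w)).card) =
        (K.filter (fun e => G.t e = w)).card + (K.filter (fun e => G.h e = w)).card +
          (if u = w then 1 else 0) + (if v = w then 1 else 0) := by ring
    rw [h2]
    exact h1)
  have hnone : ψ none = 1 ∨ ψ none = -1 := (hψ1 none).1 (by simp)
  -- the orientation in which the extra edge enters `u`
  obtain ⟨κ, hκ1, hκ0, hκn⟩ : ∃ κ : E → ℤ, (∀ e ∈ K, κ e = 1 ∨ κ e = -1) ∧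
      (∀ e, e ∉ K → κ e = 0) ∧ ∀ X : Finset V,
        ∑ e, ((if G.h e ∈ X then κ e else 0) - (if G.t e ∈ X then κ e else 0)) =
          (if v ∈ X then 1 else 0) - (if u ∈ X then 1 else 0) := by
    refine ⟨fun e => - (ψ none) * ψ (some e), fun e he => ?_, fun e he => ?_, fun X => ?_⟩
    · show - (ψ none) * ψ (some e) = 1 ∨ - (ψ none) * ψ (some e) = -1
      rcases hnone with h1 | h1 <;> rcases (hψ1 (some e)).1 (by simpa using he) with h2 | h2 <;>
        rw [h1, h2] <;> simp
    · show - (ψ none) * ψ (some e) = 0
      rw [(hψ1 (some e)).2 (by simpa using he), mul_zero]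
    · have h1 : ∑ w ∈ X, net t' h' ψ w = 0 := Finset.sum_eq_zero fun w _ => hψ2 w
      rw [net_sum, Fintype.sum_option] at h1
      change ((if u ∈ X then ψ none else 0) - (if v ∈ X then ψ none else 0)) +
        ∑ g, ((if G.t g ∈ X then ψ (some g) else 0) -
          (if G.h g ∈ X then ψ (some g) else 0)) = 0 at h1
      have h2 : ∑ e, ((if G.h e ∈ X then - (ψ none) * ψ (some e) else 0) -
          (if G.t e ∈ X then - (ψ none) * ψ (some e) else 0)) =
          ψ none * ∑ g, ((if G.t g ∈ X then ψ (some g) else 0) -
          (if G.h g ∈ X then ψ (some g) else 0)) := by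
        rw [Finset.mul_sum]
        refine Finset.sum_congr rfl fun e _ => ?_
        split_ifs <;> ring
      have h3 : ∑ g, ((if G.t g ∈ X then ψ (some g) else 0) -
          (if G.h g ∈ X then ψ (some g) else 0)) =
          (if v ∈ X then ψ none else 0) - (if u ∈ X then ψ none else 0) := by linarith
      show ∑ e, ((if G.h e ∈ X then - (ψ none) * ψ (some e) else 0) -
          (if G.t e ∈ X then - (ψ none) * ψ (some e) else 0)) = _
      rw [h2, h3]
      rcases hnone with h4 | h4 <;> rw [h4] <;> split_ifs <;> norm_num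
  have hcutK : ∀ e ∈ G.cut {u}, e ∈ K := fun e he => by
    rw [hKdef, mem_filter, hall e he, hyc1]
    exact ⟨mem_univ _, one_ne_zero⟩
  -- an edge at `u` which enters `u`
  obtain ⟨e1, he1, hin⟩ : ∃ e1 ∈ G.cut {u}, ∀ X : Finset V, u ∈ X →
      0 ≤ (if G.h e1 ∈ X then κ e1 else 0) - (if G.t e1 ∈ X then κ e1 else 0) := by
    by_contra hcon
    push Not at hcon
    have h1 : ∀ e ∈ G.cut {u}, (if G.h e ∈ ({u} : Finset V) then κ e else 0) -
        (if G.t e ∈ ({u} : Finset V) then κ e else 0) = -1 := by
      intro e he
      obtain ⟨X, hX, hlt⟩ := hcon e he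
      have hc := he
      rw [OrGraph.cut, mem_filter] at hc
      have hc2 := hc.2
      simp only [mem_singleton] at hc2 ⊢
      rcases hκ1 e (hcutK e he) with hk | hk
      · rw [hk] at hlt ⊢
        by_cases a : G.h e = u
        · have b : ¬ G.t e = u := fun b => hc2 ⟨fun _ => a, fun _ => b⟩
          rw [a] at hlt
          rw [if_pos hX] at hlt
          split_ifs at hlt <;> omega
        · have b : G.t e = u := by
            by_contra b
            exact hc2 ⟨fun c => absurd c b, fun c => absurd c a⟩
          rw [if_neg a, if_pos b]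
          norm_num
      · rw [hk] at hlt ⊢
        by_cases a : G.h e = u
        · have b : ¬ G.t e = u := fun b => hc2 ⟨fun _ => a, fun _ => b⟩
          rw [if_pos a, if_neg b]
          norm_num
        · have b : G.t e = u := by
            by_contra b
            exact hc2 ⟨fun c => absurd c b, fun c => absurd c a⟩
          rw [b] at hlt
          rw [if_pos hX] at hlt
          split_ifs at hlt <;> omega
    have h2 := hκn {u}
    have h3 : ∑ e, ((if G.h e ∈ ({u} : Finset V) then κ e else 0) -
        (if G.t e ∈ ({u} : Finset V) then κ e else 0)) = ∑ e ∈ G.cut {u}, (-1 : ℤ) := by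
      rw [← Finset.sum_congr rfl h1]
      symm
      refine Finset.sum_subset (subset_univ _) fun e _ he => ?_
      rw [OrGraph.cut, mem_filter] at he
      have hc2 : (G.t e ∈ ({u} : Finset V) ↔ G.h e ∈ ({u} : Finset V)) := by
        by_contra hh
        exact he ⟨mem_univ _, hh⟩
      by_cases a : G.h e ∈ ({u} : Finset V)
      · rw [if_pos a, if_pos (hc2.2 a), sub_self]
      · rw [if_neg a, if_neg (fun b => a (hc2.1 b)), sub_self]
    rw [h3, Finset.sum_const, hu, if_neg (by simpa using Ne.symm huv), if_pos (by simp)] at h2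
    norm_num at h2
  obtain ⟨g, hg1, hg2⟩ := hoffman G.t G.h
    (fun e => if e = e1 then κ e else if κ e = -1 then -1 else 0)
    (fun e => if e = e1 then κ e else if κ e = 1 then 1 else 0)
    (fun _ => 0) (fun e => by
      split_ifs with a b c
      · exact le_rfl
      · norm_num
      · norm_num
      · norm_num
      · exact le_rfl) (by simp) (by
      intro X
      unfold ff
      rw [Finset.sum_const_zero, zero_add]
      have hval : ∀ e, (κ e = 1 ∨ κ e = -1 ∨ κ e = 0) := fun e => by
        by_cases he : e ∈ K
        · rcases hκ1 e he with h1 | h1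
          · exact Or.inl h1
          · exact Or.inr (Or.inl h1)
        · exact Or.inr (Or.inr (hκ0 e he))
      by_cases hX : u ∈ X
      · refine Finset.sum_nonneg fun e _ => ?_
        unfold ce
        by_cases hee : e = e1
        · subst hee
          have h1 := hin X hX
          by_cases a : G.t e ∈ X <;> by_cases b : G.h e ∈ X <;>
            simp only [a, b, if_true, if_false, not_true, not_false_eq_true, and_true, and_false,
              sub_zero, zero_sub, sub_self] at h1 ⊢ <;> omega
        · simp only [hee, if_false]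
          rcases hval e with h1 | h1 | h1 <;> by_cases a : G.t e ∈ X <;>
            by_cases b : G.h e ∈ X <;> simp [a, b, h1]
      · have h1 := hκn X
        rw [if_neg hX, sub_zero] at h1
        have h2 : (0 : ℤ) ≤ ∑ e, ((if G.h e ∈ X then κ e else 0) -
            (if G.t e ∈ X then κ e else 0)) := by
          rw [h1]; split_ifs <;> norm_num
        refine le_trans h2 (Finset.sum_le_sum fun e _ => ?_)
        unfold ce
        by_cases hee : e = e1
        · subst hee
          by_cases a : G.t e ∈ X <;> by_cases b : G.h e ∈ X <;> simp [a, b]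
        · simp only [hee, if_false]
          rcases hval e with h1 | h1 | h1 <;> by_cases a : G.t e ∈ X <;>
            by_cases b : G.h e ∈ X <;> simp [a, b, h1])
  have hgv : ∀ e, g e = 1 ∨ g e = -1 ∨ g e = 0 := by
    intro e
    have h1 := hg1 e
    by_cases hee : e = e1
    · subst hee
      rw [if_pos rfl, if_pos rfl] at h1
      rcases hκ1 e (hcutK e he1) with h2 | h2 <;> rw [h2] at h1 <;> omega
    · rw [if_neg hee, if_neg hee] at h1
      split_ifs at h1 <;> omega
  have hgK : ∀ e, g e ≠ 0 → e ∈ K := by
    intro e he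
    by_contra hK'
    apply he
    have h1 := hg1 e
    have hee : e ≠ e1 := fun hh => hK' (hh ▸ hcutK e1 he1)
    rw [if_neg hee, if_neg hee, hκ0 e hK'] at h1
    norm_num at h1
    omega
  refine ⟨univ.filter (fun e => g e ≠ 0), fun x => ?_, fun e he => ?_, e1, ?_, he1⟩
  · have h1 := hg2 x
    unfold net at h1
    have h2 : ∀ e, ((g e : ℤ) : ZMod 2) ≠ 0 ↔ g e ≠ 0 := by
      intro e
      rcases hgv e with h | h | h <;> rw [h] <;> decide
    have h3 := congrArg (fun z : ℤ => (z : ZMod 2)) h1
    simp only [Int.cast_sub, Int.cast_sum, Int.cast_zero] at h3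
    rw [sum_eq_card, sum_eq_card] at h3
    have h4 : ∀ k : E → V, (univ.filter (fun g' => k g' = x)).filter
        (fun e => ((g e : ℤ) : ZMod 2) ≠ 0) =
        (univ.filter (fun e => g e ≠ 0)).filter (fun e => k e = x) := by
      intro k
      rw [Finset.filter_filter, Finset.filter_filter]
      refine Finset.filter_congr fun e _ => ?_
      rw [h2 e]
      exact and_comm
    rw [h4, h4] at h3
    rw [← ZMod.natCast_eq_zero_iff_even]
    unfold OrGraph.deg
    push_cast
    rw [sub_eq_zero] at h3
    rw [h3]
    exact CharTwo.add_self_eq_zero _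
  · rw [mem_filter] at he
    have h1 := hgK e he.2
    rw [hKdef, mem_filter, om_ne y _ hy0] at h1
    exact h1.2.2
  · rw [mem_filter]
    refine ⟨mem_univ _, ?_⟩
    have h1 := hg1 e1
    rw [if_pos rfl, if_pos rfl] at h1
    rcases hκ1 e1 (hcutK e1 he1) with h2 | h2 <;> rw [h2] at h1 <;> omega

end Pool.Agent.TH499.NF
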