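import Pool.Agent.TH499.NF.Presc

set_option autoImplicit false
set_option linter.unusedSectionVars false

/-! # Gluing at 3-edge-cuts -/

namespace Pool.Agent.TH499.NF
open Finset Pool.Agent.H160R2.HF Pool.Agent.H179R3.HF

variable {V E : Type*} [Fintype V] [Fintype E] [DecidableEq V] [DecidableEq E]

theorem no_three {o0 o1 o2 a b c : ℤ} (h0 : o0 = 1 ∨ o0 = -1) (h1 : o1 = 1 ∨ o1 = -1)
    (h2 : o2 = 1 ∨ o2 = -1) (hs : o0 * a + o1 * b + o2 * c = 0) (ha : 2 ≤ |a|) (ha' : |a| ≤ 3)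
    (hb : 2 ≤ |b|) (hb' : |b| ≤ 3) (hc : 2 ≤ |c|) (hc' : |c| ≤ 3) : False := by
  rcases abs_cases a with ⟨h3, _⟩ | ⟨h3, _⟩ <;> rcases abs_cases b with ⟨h4, _⟩ | ⟨h4, _⟩ <;>
    rcases abs_cases c with ⟨h5, _⟩ | ⟨h5, _⟩ <;> rcases h0 with rfl | rfl <;>
    rcases h1 with rfl | rfl <;> rcases h2 with rfl | rfl <;> omega

theorem presc2 {G : OrGraph V E} {f : E → K4} (hnz : ∀ e, f e ≠ 0) (hf : ∀ x, bd G f x = 0) {w : V}
    {e0 e1 e2 : E} (h01 : e0 ≠ e1) (h02 : e0 ≠ e2) (h12 : e1 ≠ e2)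
    (hw : G.cut {w} = {e0, e1, e2}) (α β : E → ℤ) (hα0 : α e0 = 0)
    (hαs : og G w e1 * α e1 + og G w e2 * α e2 = 0)
    (hβs : og G w e0 * β e0 + og G w e1 * β e1 + og G w e2 * β e2 = 0)
    (h1 : ∀ e ∈ G.cut {w}, |α e| ≤ 1) (h3 : ∀ e ∈ G.cut {w}, |β e| ≤ 3)
    (hd : ∀ e ∈ G.cut {w}, α e = 0 → 2 ≤ |β e|) :
    ∃ φ₂ φ₄ : E → ℤ, G.IsHalfFlowPair φ₂ φ₄ ∧ ∀ e ∈ G.cut {w}, φ₂ e = α e ∧ φ₄ e = β e := by
  have hm0 : e0 ∈ G.cut {w} := by rw [hw]; simp
  have hm1 : e1 ∈ G.cut {w} := by rw [hw]; simp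
  have hm2 : e2 ∈ G.cut {w} := by rw [hw]; simp
  have h1a := abs_le.1 (h1 e1 hm1)
  have h2a := abs_le.1 (h1 e2 hm2)
  have ho1 := og_or G w e1
  have ho2 := og_or G w e2
  have hne1 : α e1 ≠ 0 := by
    intro h
    have h' : α e2 = 0 := by
      rw [h, mul_zero, zero_add] at hαs
      rcases ho2 with h'' | h'' <;> rw [h''] at hαs <;> omega
    exact no_three (og_or G w e0) ho1 ho2 hβs (hd e0 hm0 hα0) (h3 e0 hm0) (hd e1 hm1 h)
      (h3 e1 hm1) (hd e2 hm2 h') (h3 e2 hm2)
  have hne2 : α e2 ≠ 0 := by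
    intro h
    rw [h, mul_zero, add_zero] at hαs
    rcases ho1 with h'' | h'' <;> rw [h''] at hαs <;> omega
  by_cases hle : |β e2| ≤ |β e1|
  · exact core hnz hf h01 h02 h12 hw α β hα0 (by omega) hαs hβs (hd e0 hm0 hα0) (h3 e0 hm0)
      (h3 e1 hm1) hle
  · have hw' : G.cut {w} = {e0, e2, e1} := by
      rw [hw]; ext x; simp only [mem_insert, mem_singleton]; tauto
    exact core hnz hf h02 h01 (Ne.symm h12) hw' α β hα0 (by omega)
      (by linarith) (by linarith) (hd e0 hm0 hα0) (h3 e0 hm0) (h3 e2 hm2) (by omega)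

/-- prescribed values at a vertex of degree three -/
theorem prescribed {G : OrGraph V E} {f : E → K4} (hnz : ∀ e, f e ≠ 0) (hf : ∀ x, bd G f x = 0)
    {w : V} (hw3 : (G.cut {w}).card = 3) (α β : E → ℤ)
    (hα : ∑ e ∈ G.cut {w}, og G w e * α e = 0) (hβ : ∑ e ∈ G.cut {w}, og G w e * β e = 0)
    (h1 : ∀ e ∈ G.cut {w}, |α e| ≤ 1) (h3 : ∀ e ∈ G.cut {w}, |β e| ≤ 3)
    (hd : ∀ e ∈ G.cut {w}, α e = 0 → 2 ≤ |β e|) :
    ∃ φ₂ φ₄ : E → ℤ, G.IsHalfFlowPair φ₂ φ₄ ∧ ∀ e ∈ G.cut {w}, φ₂ e = α e ∧ φ₄ e = β e := by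
  obtain ⟨a, b, c, hab, hac, hbc, hw⟩ := Finset.card_eq_three.1 hw3
  have hsum3 : ∀ (φ : E → ℤ), ∑ e ∈ G.cut {w}, φ e = φ a + (φ b + φ c) := by
    intro φ
    rw [hw, Finset.sum_insert, Finset.sum_pair hbc]
    simp only [mem_insert, mem_singleton, not_or]
    exact ⟨hab, hac⟩
  rw [hsum3] at hα hβ
  have ha := abs_le.1 (h1 a (by rw [hw]; simp))
  have hb := abs_le.1 (h1 b (by rw [hw]; simp))
  have hc := abs_le.1 (h1 c (by rw [hw]; simp))
  have hoa := og_or G w a
  have hob := og_or G w b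
  have hoc := og_or G w c
  by_cases hza : α a = 0
  · rw [hza, mul_zero, zero_add] at hα
    exact presc2 hnz hf hab hac hbc hw α β hza hα (by linarith) h1 h3 hd
  by_cases hzb : α b = 0
  · have hw' : G.cut {w} = {b, a, c} := by
      rw [hw]; ext x; simp only [mem_insert, mem_singleton]; tauto
    rw [hzb, mul_zero, zero_add] at hα
    exact presc2 hnz hf (Ne.symm hab) hbc hac hw' α β hzb hα (by linarith) h1 h3 hd
  by_cases hzc : α c = 0
  · have hw' : G.cut {w} = {c, a, b} := by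
      rw [hw]; ext x; simp only [mem_insert, mem_singleton]; tauto
    rw [hzc, mul_zero, add_zero] at hα
    exact presc2 hnz hf (Ne.symm hac) (Ne.symm hbc) hab hw' α β hzc hα (by linarith) h1 h3 hd
  · exfalso
    have ha' : α a = 1 ∨ α a = -1 := by omega
    have hb' : α b = 1 ∨ α b = -1 := by omega
    have hc' : α c = 1 ∨ α c = -1 := by omega
    rcases hoa with h | h <;> rcases hob with h' | h' <;> rcases hoc with h'' | h'' <;>
      rw [h, h', h''] at hα <;> omega

theorem net_mp (G : OrGraph V E) (ρ : V → V) (g : E → ℤ) (y : V) :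
    net (mp G ρ).t (mp G ρ).h g y = ∑ x with ρ x = y, net G.t G.h g x := by
  unfold net
  rw [Finset.sum_sub_distrib]
  have h1 : ∀ k : E → V, ∑ e with ρ (k e) = y, g e = ∑ x with ρ x = y, ∑ e with k e = x, g e := by
    intro k
    have h2 : ∀ x, ∑ e with k e = x, g e = ∑ e, if k e = x then g e else 0 :=
      fun x => Finset.sum_filter _ _
    rw [Finset.sum_congr rfl fun x _ => h2 x, Finset.sum_comm, Finset.sum_filter]
    refine Finset.sum_congr rfl fun e _ => ?_
    rw [Finset.sum_ite_eq]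
    simp
  exact congrArg₂ (· - ·) (h1 G.t) (h1 G.h)

/-- the graph obtained by contracting the complement of `Y` has a nowhere-zero flow with values in
the Klein four-group -/
def Col (G : OrGraph V E) (Y : Finset V) : Prop :=
  ∃ f : E → K4, (∀ x ∈ Y, bd G f x = 0) ∧ ∀ e, (G.t e ∈ Y ∨ G.h e ∈ Y) → f e ≠ 0

theorem Col.mp {G : OrGraph V E} {ρ : V → V} {Y : Finset V}
    (h : Col G (univ.filter (fun x => ρ x ∈ Y))) : Col (mp G ρ) Y := by
  obtain ⟨f, hf, hz⟩ := h
  refine ⟨f, fun y hy => ?_, fun e he => hz e ?_⟩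
  · rw [bd_mp]
    refine Finset.sum_eq_zero fun x hx => hf x ?_
    rw [mem_filter] at hx ⊢
    exact ⟨mem_univ _, by rw [hx.2]; exact hy⟩
  · simpa [NF.mp] using he

theorem net_congr (G : OrGraph V E) {g g' : E → ℤ} {x : V}
    (h : ∀ e, (G.t e = x ∨ G.h e = x) → g e = g' e) : net G.t G.h g x = net G.t G.h g' x := by
  unfold net
  congr 1
  · refine Finset.sum_congr rfl fun e he => h e (Or.inl ?_)
    exact (mem_filter.1 he).2
  · refine Finset.sum_congr rfl fun e he => h e (Or.inr ?_)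
    exact (mem_filter.1 he).2

theorem bd_congr (G : OrGraph V E) {g g' : E → K4} {x : V}
    (h : ∀ e, (G.t e = x ∨ G.h e = x) → g e = g' e) : bd G g x = bd G g' x := by
  unfold bd
  congr 1
  · refine Finset.sum_congr rfl fun e he => h e (Or.inl ?_)
    exact (mem_filter.1 he).2
  · refine Finset.sum_congr rfl fun e he => h e (Or.inr ?_)
    exact (mem_filter.1 he).2

theorem net_of_isFlow {G : OrGraph V E} {φ : E → ℤ} (h : G.IsFlow φ) (v : V) :
    net G.t G.h φ v = 0 := by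
  unfold net
  rw [h v, sub_self]

theorem glue {G : OrGraph V E} {X : Finset V} (hX3 : (G.cut X).card = 3) {a b : V} (ha : a ∉ X)
    (hb : b ∈ X) (hcol : Col G Xᶜ) {φ₂' φ₄' : E → ℤ}
    (hp : (mp G (fun x => if x ∈ X then x else a)).IsHalfFlowPair φ₂' φ₄') :
    ∃ φ₂ φ₄ : E → ℤ, G.IsHalfFlowPair φ₂ φ₄ := by
  classical
  obtain ⟨f1, hf1, hz1⟩ := hcol
  -- fibres of the two maps
  have hρ : ∀ y ∈ X, univ.filter (fun x => (if x ∈ X then x else a) = y) = {y} := by
    intro y hy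
    ext x
    simp only [mem_filter, mem_univ, true_and, mem_singleton]
    constructor
    · intro h
      split_ifs at h with h1
      · exact h
      · exact absurd (h ▸ hy) ha
    · rintro rfl
      rw [if_pos hy]
  have hσ : ∀ y, y ∉ X → univ.filter (fun x => (if x ∈ X then b else x) = y) = {y} := by
    intro y hy
    ext x
    simp only [mem_filter, mem_univ, true_and, mem_singleton]
    constructor
    · intro h
      split_ifs at h with h1
      · exact absurd (h ▸ hb) hy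
      · exact h
    · rintro rfl
      rw [if_neg hy]
  have hσb : univ.filter (fun x => (if x ∈ X then b else x) = b) = X := by
    ext x
    simp only [mem_filter, mem_univ, true_and]
    constructor
    · intro h
      split_ifs at h with h1
      · exact h1
      · exact absurd (h ▸ hb) h1
    · intro h
      rw [if_pos h]
  have hn2 : ∀ y ∈ X, net G.t G.h φ₂' y = 0 := fun y hy => by
    have h := net_of_isFlow hp.1.2 y
    rw [net_mp, hρ y hy, Finset.sum_singleton] at h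
    exact h
  have hn4 : ∀ y ∈ X, net G.t G.h φ₄' y = 0 := fun y hy => by
    have h := net_of_isFlow hp.2.1.2 y
    rw [net_mp, hρ y hy, Finset.sum_singleton] at h
    exact h
  set G2 : OrGraph V E := mp G (fun x => if x ∈ X then b else x) with hG2
  have hcut : G2.cut {b} = G.cut X := by
    rw [hG2, cut_mp]
    congr 1
    rw [← hσb]
    ext x
    simp
  set f2 : E → K4 := fun e => if G.t e ∈ X ∧ G.h e ∈ X then (1, 1) else f1 e with hf2
  have hf2z : ∀ e, f2 e ≠ 0 := by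
    intro e
    rw [hf2]
    show (if G.t e ∈ X ∧ G.h e ∈ X then ((1, 1) : K4) else f1 e) ≠ 0
    split_ifs with h
    · decide
    · apply hz1 e
      rw [mem_compl, mem_compl]
      by_contra hcon
      push Not at hcon
      exact h hcon
  have hf2X : ∀ x, x ∉ X → bd G f2 x = 0 := by
    intro x hx
    rw [← hf1 x (mem_compl.2 hx)]
    refine bd_congr G fun e he => ?_
    rw [hf2]
    show (if G.t e ∈ X ∧ G.h e ∈ X then ((1, 1) : K4) else f1 e) = f1 e
    rw [if_neg]
    rintro ⟨h1, h2⟩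
    rcases he with he | he
    · exact hx (he ▸ h1)
    · exact hx (he ▸ h2)
  have hbd2 : ∀ y, bd G2 f2 y = 0 := by
    intro y
    rw [hG2, bd_mp]
    by_cases hy : y ∈ X
    · by_cases hyb : y = b
      · rw [hyb, hσb, sum_bd, ← compl_cut, ← sum_bd]
        exact Finset.sum_eq_zero fun x hx => hf2X x (mem_compl.1 hx)
      · refine Finset.sum_eq_zero fun x hx => ?_
        exfalso
        rw [mem_filter] at hx
        have h := hx.2
        split_ifs at h with h1
        · exact hyb h.symm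
        · exact h1 (h ▸ hy)
    · rw [hσ y hy, Finset.sum_singleton]
      exact hf2X y hy
  obtain ⟨φ₂, φ₄, hq, hval⟩ := prescribed (G := G2) hf2z hbd2 (w := b) (by rw [hcut]; exact hX3)
    φ₂' φ₄' (by
      rw [← net_star, hG2, net_mp, hσb]
      exact Finset.sum_eq_zero fun x hx => hn2 x hx)
    (by
      rw [← net_star, hG2, net_mp, hσb]
      exact Finset.sum_eq_zero fun x hx => hn4 x hx)
    (fun e _ => by
      have h := hp.1.1 e
      norm_num at h
      exact h)
    (fun e _ => by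
      have h := hp.2.1.1 e
      norm_num at h
      exact h)
    (fun e _ h0 => hp.2.2 e h0)
  rw [hcut] at hval
  have hm2 : ∀ y, y ∉ X → net G.t G.h φ₂ y = 0 := fun y hy => by
    have h := net_of_isFlow hq.1.2 y
    rw [hG2, net_mp, hσ y hy, Finset.sum_singleton] at h
    exact h
  have hm4 : ∀ y, y ∉ X → net G.t G.h φ₄ y = 0 := fun y hy => by
    have h := net_of_isFlow hq.2.1.2 y
    rw [hG2, net_mp, hσ y hy, Finset.sum_singleton] at h
    exact h
  have hcutm : ∀ e x, x ∈ X → (G.t e = x ∨ G.h e = x) → ¬ (G.t e ∈ X ∧ G.h e ∈ X) →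
      e ∈ G.cut X := by
    intro e x hx he hne
    rw [OrGraph.cut, mem_filter]
    refine ⟨mem_univ _, fun hiff => hne ?_⟩
    rcases he with he | he
    · have h1 : G.t e ∈ X := he ▸ hx
      exact ⟨h1, hiff.1 h1⟩
    · have h1 : G.h e ∈ X := he ▸ hx
      exact ⟨hiff.2 h1, h1⟩
  refine ⟨fun e => if G.t e ∈ X ∧ G.h e ∈ X then φ₂' e else φ₂ e,
    fun e => if G.t e ∈ X ∧ G.h e ∈ X then φ₄' e else φ₄ e,
    ⟨fun e => ?_, G.isFlow_of_net fun x => ?_⟩, ⟨fun e => ?_, G.isFlow_of_net fun x => ?_⟩,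
    fun e he => ?_⟩
  · show |if G.t e ∈ X ∧ G.h e ∈ X then φ₂' e else φ₂ e| ≤ _
    split_ifs
    · exact hp.1.1 e
    · exact hq.1.1 e
  · by_cases hx : x ∈ X
    · rw [← hn2 x hx]
      refine net_congr G fun e he => ?_
      show (if G.t e ∈ X ∧ G.h e ∈ X then φ₂' e else φ₂ e) = φ₂' e
      split_ifs with h
      · rfl
      · exact (hval e (hcutm e x hx he h)).1
    · rw [← hm2 x hx]
      refine net_congr G fun e he => ?_
      show (if G.t e ∈ X ∧ G.h e ∈ X then φ₂' e else φ₂ e) = φ₂ e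
      rw [if_neg]
      rintro ⟨h1, h2⟩
      rcases he with he | he
      · exact hx (he ▸ h1)
      · exact hx (he ▸ h2)
  · show |if G.t e ∈ X ∧ G.h e ∈ X then φ₄' e else φ₄ e| ≤ _
    split_ifs
    · exact hp.2.1.1 e
    · exact hq.2.1.1 e
  · by_cases hx : x ∈ X
    · rw [← hn4 x hx]
      refine net_congr G fun e he => ?_
      show (if G.t e ∈ X ∧ G.h e ∈ X then φ₄' e else φ₄ e) = φ₄' e
      split_ifs with h
      · rfl
      · exact (hval e (hcutm e x hx he h)).2
    · rw [← hm4 x hx]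
      refine net_congr G fun e he => ?_
      show (if G.t e ∈ X ∧ G.h e ∈ X then φ₄' e else φ₄ e) = φ₄ e
      rw [if_neg]
      rintro ⟨h1, h2⟩
      rcases he with he | he
      · exact hx (he ▸ h1)
      · exact hx (he ▸ h2)
  · have he' : (if G.t e ∈ X ∧ G.h e ∈ X then φ₂' e else φ₂ e) = 0 := he
    show 2 ≤ |if G.t e ∈ X ∧ G.h e ∈ X then φ₄' e else φ₄ e|
    split_ifs at he' ⊢
    · exact hp.2.2 e he'
    · exact hq.2.2 e he'

end Pool.Agent.TH499.NF
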