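import Pool.Agent.TH499.NF.Glue
import Pool.Agent.TH499.NF.Base2

set_option autoImplicit false
set_option linter.unusedSectionVars false

/-! # `1/2`-flow-pairs of graphs which get a nowhere-zero 4-flow by adding an edge -/

namespace Pool.Agent.TH499.NF
open Finset Pool.Agent.H160R2.HF Pool.Agent.H179R3.HF

universe u v

variable {V : Type u} {E : Type v} [Fintype V] [Fintype E] [DecidableEq V] [DecidableEq E]

theorem Nr.map {G : OrGraph V E} {f : E → K4} {u v : V} {c : K4} (h : Nr G f u v c) (ρ : V → V) :
    Nr (mp G ρ) f (ρ u) (ρ v) c := by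
  refine ⟨h.nz, h.c0, fun y => ?_⟩
  rw [bd_mp, Finset.sum_congr rfl fun x _ => h.bd x, Finset.sum_add_distrib,
    Finset.sum_ite_eq, Finset.sum_ite_eq]
  simp

/-- the vertices which are incident with an edge that is not a loop -/
def NI (G : OrGraph V E) : Finset V := univ.filter (fun x => (G.cut {x}).Nonempty)

theorem main (n : ℕ) : ∀ (G : OrGraph V E), (NI G).card ≤ n →
    (∀ X : Finset V, (G.cut X).card ≠ 1) → ∀ (f : E → K4) (u v : V) (c : K4), Nr G f u v c →
    (∀ X : Finset V, NT G X → Col G X ∨ Col G Xᶜ ∨ ∃ g ∈ G.cut X, f g ≠ c) →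
    ∃ φ₂ φ₄ : E → ℤ, G.IsHalfFlowPair φ₂ φ₄ := by
  classical
  induction n with
  | zero =>
    intro G hn hb f u v c h hC
    refine base2 hb h fun X hX => ?_
    exfalso
    have h1 : (G.cut X).Nonempty := Finset.card_pos.1 (by rw [hX.1]; norm_num)
    obtain ⟨e, he⟩ := h1
    rw [OrGraph.cut, mem_filter] at he
    have h2 : G.t e ∈ NI G := by
      rw [NI, mem_filter]
      refine ⟨mem_univ _, e, ?_⟩
      rw [OrGraph.cut, mem_filter]
      refine ⟨mem_univ _, fun hh => he.2 ?_⟩
      have h3 := mem_singleton.1 (hh.1 (mem_singleton_self _))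
      rw [h3]
    have := Finset.card_pos.2 ⟨_, h2⟩
    omega
  | succ n ih =>
    intro G hn hb f u v c h hC
    by_cases hbase : ∃ X : Finset V, NT G X ∧ (Col G X ∨ Col G Xᶜ)
    swap
    · refine base2 hb h fun X hX => ?_
      rcases hC X hX with h1 | h1 | h1
      · exact absurd ⟨X, hX, Or.inl h1⟩ hbase
      · exact absurd ⟨X, hX, Or.inr h1⟩ hbase
      · exact h1
    obtain ⟨X, hX3, hXz, hXc⟩ : ∃ X : Finset V, (G.cut X).card = 3 ∧
        (∀ z, G.cut X ≠ G.cut {z}) ∧ Col G Xᶜ := by
      obtain ⟨X, hX, h1 | h1⟩ := hbase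
      · exact ⟨Xᶜ, hX.compl.1, hX.compl.2, by rw [compl_compl]; exact h1⟩
      · exact ⟨X, hX.1, hX.2, h1⟩
    obtain ⟨e, he⟩ : (G.cut X).Nonempty := Finset.card_pos.1 (by omega)
    have he' := he
    rw [OrGraph.cut, mem_filter] at he'
    obtain ⟨a, b, ha, hb', hab⟩ : ∃ a b, a ∉ X ∧ b ∈ X ∧
        ((G.t e = a ∧ G.h e = b) ∨ (G.t e = b ∧ G.h e = a)) := by
      by_cases h1 : G.t e ∈ X
      · exact ⟨G.h e, G.t e, fun h2 => he'.2 ⟨fun _ => h2, fun _ => h1⟩, h1, Or.inr ⟨rfl, rfl⟩⟩
      · have h2 : G.h e ∈ X := by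
          by_contra h2
          exact he'.2 ⟨fun c => absurd c h1, fun c => absurd c h2⟩
        exact ⟨G.t e, G.h e, h1, h2, Or.inl ⟨rfl, rfl⟩⟩
    have hNI : ∀ (e : E) (x y : V), x ≠ y →
        ((G.t e = x ∧ G.h e = y) ∨ (G.t e = y ∧ G.h e = x)) → x ∈ NI G := by
      intro e x y hxy h1
      rw [NI, mem_filter]
      refine ⟨mem_univ _, e, ?_⟩
      rw [OrGraph.cut, mem_filter]
      refine ⟨mem_univ _, ?_⟩
      rw [mem_singleton, mem_singleton]
      rcases h1 with ⟨h1, h2⟩ | ⟨h1, h2⟩
      · rw [h1, h2]
        exact fun hh => hxy (hh.1 rfl).symm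
      · rw [h1, h2]
        exact fun hh => hxy (hh.2 rfl).symm
    have hba : a ≠ b := fun hh => ha (hh ▸ hb')
    have haNI : a ∈ NI G := hNI e a b hba hab
    -- another vertex outside `X`
    obtain ⟨a', ha'X, ha'a, ha'N⟩ : ∃ a', a' ∉ X ∧ a' ≠ a ∧ a' ∈ NI G := by
      by_contra hcon
      push Not at hcon
      have hout : ∀ x, x ∉ X → x ∈ NI G → x = a := by
        intro x hx hN
        by_contra hne
        exact hcon x hx hne hN
      apply hXz a
      ext e'
      rw [OrGraph.cut, OrGraph.cut, mem_filter, mem_filter, mem_singleton, mem_singleton]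
      refine and_congr_right fun _ => not_congr ?_
      by_cases heq : G.t e' = G.h e'
      · rw [heq]; tauto
      have ht : G.t e' ∈ NI G := hNI e' _ _ heq (Or.inl ⟨rfl, rfl⟩)
      have hh : G.h e' ∈ NI G := hNI e' _ _ (Ne.symm heq) (Or.inr ⟨rfl, rfl⟩)
      have h1 : G.t e' ∈ X ↔ ¬ G.t e' = a :=
        ⟨fun h2 h3 => ha (h3 ▸ h2), fun h2 => by
          by_contra h3
          exact h2 (hout _ h3 ht)⟩
      have h2 : G.h e' ∈ X ↔ ¬ G.h e' = a :=
        ⟨fun h2 h3 => ha (h3 ▸ h2), fun h2 => by
          by_contra h3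
          exact h2 (hout _ h3 hh)⟩
      rw [h1, h2, not_iff_not]
    set ρ : V → V := fun x => if x ∈ X then x else a with hρ
    have hρX : ∀ x ∈ X, ρ x = x := fun x hx => if_pos hx
    have hρn : ∀ x, x ∉ X → ρ x = a := fun x hx => if_neg hx
    have hlt : (NI (mp G ρ)).card < (NI G).card := by
      apply Finset.card_lt_card
      rw [Finset.ssubset_iff_of_subset]
      · refine ⟨a', ha'N, ?_⟩
        rw [NI, mem_filter]
        rintro ⟨_, e', he'⟩
        rw [cut_mp] at he'
        have h1 : univ.filter (fun x => ρ x ∈ ({a'} : Finset V)) = ∅ := by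
          rw [Finset.filter_eq_empty_iff]
          intro x _
          rw [mem_singleton]
          intro h2
          by_cases hx : x ∈ X
          · rw [hρX x hx] at h2
            exact ha'X (h2 ▸ hx)
          · rw [hρn x hx] at h2
            exact ha'a h2.symm
        rw [h1, OrGraph.cut, mem_filter] at he'
        exact he'.2 (by simp)
      · intro y hy
        rw [NI, mem_filter] at hy
        obtain ⟨_, e', he'⟩ := hy
        by_cases hya : y = a
        · rw [hya]; exact haNI
        rw [cut_mp] at he'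
        have hyX : y ∈ X := by
          by_contra hyX
          have h1 : univ.filter (fun x => ρ x ∈ ({y} : Finset V)) = ∅ := by
            rw [Finset.filter_eq_empty_iff]
            intro x _
            rw [mem_singleton]
            intro h2
            by_cases hx : x ∈ X
            · rw [hρX x hx] at h2
              exact hyX (h2 ▸ hx)
            · rw [hρn x hx] at h2
              exact hya h2.symm
          rw [h1, OrGraph.cut, mem_filter] at he'
          exact he'.2 (by simp)
        have h1 : univ.filter (fun x => ρ x ∈ ({y} : Finset V)) = {y} := by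
          ext x
          rw [mem_filter, mem_singleton, mem_singleton]
          constructor
          · rintro ⟨_, h2⟩
            by_cases hx : x ∈ X
            · rw [hρX x hx] at h2; exact h2
            · rw [hρn x hx] at h2; exact absurd h2.symm hya
          · rintro rfl
            exact ⟨mem_univ _, hρX x hyX⟩
        rw [h1] at he'
        rw [NI, mem_filter]
        exact ⟨mem_univ _, e', he'⟩
    obtain ⟨φ₂', φ₄', hp⟩ := ih (mp G ρ) (by omega)
      (fun Y => by rw [cut_mp]; exact hb _) f (ρ u) (ρ v) c (h.map ρ)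
      (fun Y hY => by
        have hNT : NT G (univ.filter (fun x => ρ x ∈ Y)) := by
          refine ⟨by rw [← cut_mp]; exact hY.1, fun z hz => ?_⟩
          by_cases hzX : z ∈ X
          · apply hY.2 z
            rw [cut_mp, cut_mp, hz]
            congr 1
            ext x
            rw [mem_filter, mem_singleton, mem_singleton]
            constructor
            · rintro rfl
              exact ⟨mem_univ _, hρX x hzX⟩
            · rintro ⟨_, h2⟩
              by_cases hx : x ∈ X
              · rw [hρX x hx] at h2; exact h2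
              · rw [hρn x hx] at h2; exact absurd (h2 ▸ hzX) ha
          · apply hXz z
            symm
            apply Finset.eq_of_subset_of_card_le
            · intro e' he'
              have h1 := he'
              rw [← hz, OrGraph.cut, mem_filter, mem_filter, mem_filter] at h1
              rw [OrGraph.cut, mem_filter, mem_singleton, mem_singleton] at he'
              have h2 : ¬ (ρ (G.t e') ∈ Y ↔ ρ (G.h e') ∈ Y) := by
                intro h3
                exact h1.2 ⟨fun h4 => ⟨mem_univ _, h3.1 h4.2⟩, fun h4 => ⟨mem_univ _, h3.2 h4.2⟩⟩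
              rw [OrGraph.cut, mem_filter]
              refine ⟨mem_univ _, fun h3 => ?_⟩
              by_cases h4 : G.t e' = z
              · have h5 : G.t e' ∉ X := by rw [h4]; exact hzX
                have h6 : G.h e' ∉ X := fun h6 => h5 (h3.2 h6)
                apply h2
                rw [hρn _ h5, hρn _ h6]
              · have h7 : G.h e' = z := by
                  by_contra h7
                  exact he'.2 ⟨fun c => absurd c h4, fun c => absurd c h7⟩
                have h6 : G.h e' ∉ X := by rw [h7]; exact hzX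
                have h5 : G.t e' ∉ X := fun h5 => h6 (h3.1 h5)
                apply h2
                rw [hρn _ h5, hρn _ h6]
            · rw [← hz, hX3, ← cut_mp, hY.1]
        rcases hC _ hNT with h1 | h1 | h1
        · exact Or.inl h1.mp
        · right; left
          apply Col.mp
          have h2 : univ.filter (fun x => ρ x ∈ Yᶜ) = (univ.filter (fun x => ρ x ∈ Y))ᶜ := by
            ext x
            simp
          rw [h2]
          exact h1
        · right; right
          rw [cut_mp]
          exact h1)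
    exact glue hX3 ha hb' hXc hp

/-- the graph obtained by adding an edge from `u` to `v` -/
def addEdge (G : OrGraph V E) (u v : V) : OrGraph V (Option E) :=
  ⟨fun o => o.elim u G.t, fun o => o.elim v G.h⟩

/-- the graph obtained by contracting the vertex set `X` to a single vertex (named `none`); the
edges inside `X` become loops -/
def contr (G : OrGraph V E) (X : Finset V) : OrGraph (Option V) E :=
  ⟨fun e => if G.t e ∈ X then none else some (G.t e),
    fun e => if G.h e ∈ X then none else some (G.h e)⟩

/-- the graph has a nowhere-zero 4-flow -/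
def NZ4 {W F : Type*} [Fintype W] [DecidableEq W] [Fintype F] [DecidableEq F] (H : OrGraph W F) :
    Prop := ∃ ψ : F → ℤ, H.IsKFlow 4 ψ ∧ ∀ e, ψ e ≠ 0

theorem nr_of {G : OrGraph V E} {u v : V} {f : Option E → K4} (hf : IsZ (addEdge G u v) f)
    (hz : ∀ o, f o ≠ 0) : Nr G (fun e => f (some e)) u v (f none) := by
  refine ⟨fun e => hz _, hz _, fun x => ?_⟩
  have h1 := hf x
  rw [Finset.sum_filter, Finset.sum_filter, Fintype.sum_option, Fintype.sum_option] at h1
  change ((if u = x then f none else 0) + ∑ e, if G.t e = x then f (some e) else 0) +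
    ((if v = x then f none else 0) + ∑ e, if G.h e = x then f (some e) else 0) = 0 at h1
  have h2 : ∀ a b c d : K4, (a + b) + (c + d) = 0 → b + d = a + c := by decide
  unfold bd
  rw [Finset.sum_filter, Finset.sum_filter]
  exact h2 _ _ _ _ h1

theorem col_of {G : OrGraph V E} {X : Finset V} (h : NZ4 (contr G X)) : Col G Xᶜ := by
  obtain ⟨ψ, hψ, hz⟩ := h
  obtain ⟨f, hf, hfz⟩ := exists_K4 (contr G X) hψ
  refine ⟨f, fun x hx => ?_, fun e _ h => hz e ((hfz e).1 h)⟩
  rw [mem_compl] at hx
  rw [← hf (some x)]
  unfold bd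
  congr 1
  · refine Finset.sum_congr (Finset.filter_congr fun e _ => ?_) fun _ _ => rfl
    show G.t e = x ↔ (if G.t e ∈ X then none else some (G.t e)) = some x
    constructor
    · intro h
      rw [if_neg (by rw [h]; exact hx), h]
    · intro h
      split_ifs at h with h1
      exact Option.some.inj h
  · refine Finset.sum_congr (Finset.filter_congr fun e _ => ?_) fun _ _ => rfl
    show G.h e = x ↔ (if G.h e ∈ X then none else some (G.h e)) = some x
    constructor
    · intro h
      rw [if_neg (by rw [h]; exact hx), h]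
    · intro h
      split_ifs at h with h1
      exact Option.some.inj h

theorem final (G : OrGraph V E) (hB : G.Bridgeless) (u v : V) (f : Option E → K4)
    (hf : IsZ (addEdge G u v) f) (hz : ∀ o, f o ≠ 0)
    (hC : ∀ X : Finset V, (G.cut X).card = 3 → (∀ z, G.cut X ≠ G.cut {z}) →
      NZ4 (contr G X) ∨ NZ4 (contr G Xᶜ) ∨
      ∃ e ∈ G.cut X, ∃ e' ∈ G.cut X, f (some e) ≠ f (some e')) :
    ∃ φ₂ φ₄ : E → ℤ, G.IsHalfFlowPair φ₂ φ₄ := by
  refine main (NI G).card G le_rfl (G.cut_card_ne_one hB) _ u v _ (nr_of hf hz) fun X hX => ?_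
  rcases hC X hX.1 hX.2 with h1 | h1 | ⟨e, he, e', he', hne⟩
  · exact Or.inr (Or.inl (col_of h1))
  · left
    have := col_of h1
    rwa [compl_compl] at this
  · right; right
    by_cases h1 : f (some e) = f none
    · exact ⟨e', he', fun h2 => hne (h1.trans h2.symm)⟩
    · exact ⟨e, he, h1⟩

/-- every admissible choice of values at a vertex with three edges (loops not counted) extends to a
`1/2`-flow-pair if there is a nowhere-zero 4-flow -/
theorem extend (G : OrGraph V E) (hG : NZ4 G) (w : V) (hw : (G.cut {w}).card = 3) (α β : E → ℤ)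
    (hα : ∑ e ∈ G.cut {w}, (if G.t e = w then α e else - α e) = 0)
    (hβ : ∑ e ∈ G.cut {w}, (if G.t e = w then β e else - β e) = 0)
    (hd : ∀ e ∈ G.cut {w}, |α e| ≤ 1 ∧ |β e| ≤ 3 ∧ (α e = 0 → 2 ≤ |β e|)) :
    ∃ φ₂ φ₄ : E → ℤ, G.IsHalfFlowPair φ₂ φ₄ ∧ ∀ e ∈ G.cut {w}, φ₂ e = α e ∧ φ₄ e = β e := by
  obtain ⟨ψ, hψ, hz⟩ := hG
  obtain ⟨f, hf, hfz⟩ := exists_K4 G hψ
  have ho : ∀ γ : E → ℤ, ∑ e ∈ G.cut {w}, og G w e * γ e =
      ∑ e ∈ G.cut {w}, (if G.t e = w then γ e else - γ e) := by
    intro γ
    refine Finset.sum_congr rfl fun e _ => ?_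
    unfold og
    split_ifs <;> ring
  exact prescribed (fun e h => hz e ((hfz e).1 h)) hf hw α β (by rw [ho]; exact hα)
    (by rw [ho]; exact hβ) (fun e he => (hd e he).1) (fun e he => (hd e he).2.1)
    (fun e he => (hd e he).2.2)

end Pool.Agent.TH499.NF
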