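import Pool.Agent.TH499.NF.Base
import Pool.Agent.TH499.NF.Arith

set_option autoImplicit false
set_option linter.unusedSectionVars false

/-! # Prescribed values at a vertex of degree three -/

namespace Pool.Agent.TH499.NF
open Finset Pool.Agent.H160R2.HF Pool.Agent.H179R3.HF

variable {V E : Type*} [Fintype V] [Fintype E] [DecidableEq V] [DecidableEq E]

/-- sign of an edge at `w` -/
def og (G : OrGraph V E) (w : V) (e : E) : ℤ := if G.t e = w then 1 else -1

theorem og_or (G : OrGraph V E) (w : V) (e : E) : og G w e = 1 ∨ og G w e = -1 := by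
  unfold og
  split_ifs
  · exact Or.inl rfl
  · exact Or.inr rfl

theorem net_star (G : OrGraph V E) (g : E → ℤ) (w : V) :
    net G.t G.h g w = ∑ e ∈ G.cut {w}, og G w e * g e := by
  have h1 := net_sum G.t G.h g {w}
  rw [Finset.sum_singleton] at h1
  rw [h1]
  symm
  have h2 : ∀ e ∈ G.cut {w}, og G w e * g e =
      (if G.t e ∈ ({w} : Finset V) then g e else 0) - (if G.h e ∈ ({w} : Finset V) then g e else 0) := by
    intro e he
    rw [OrGraph.cut, mem_filter] at he
    have h3 := he.2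
    simp only [mem_singleton] at h3 ⊢
    unfold og
    by_cases a : G.t e = w
    · have b : ¬ G.h e = w := fun b => h3 ⟨fun _ => b, fun _ => a⟩
      rw [if_pos a, if_pos a, if_neg b]
      ring
    · have b : G.h e = w := by
        by_contra b
        exact h3 ⟨fun c => absurd c a, fun c => absurd c b⟩
      rw [if_neg a, if_neg a, if_pos b]
      ring
  rw [Finset.sum_congr rfl h2]
  refine Finset.sum_subset (subset_univ _) fun e _ he => ?_
  rw [OrGraph.cut, mem_filter] at he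
  have hc2 : (G.t e ∈ ({w} : Finset V) ↔ G.h e ∈ ({w} : Finset V)) := by
    by_contra hh
    exact he ⟨mem_univ _, hh⟩
  by_cases a : G.h e ∈ ({w} : Finset V)
  · rw [if_pos a, if_pos (hc2.2 a), sub_self]
  · rw [if_neg a, if_neg (fun b => a (hc2.1 b)), sub_self]

theorem star_side (G : OrGraph V E) (w : V) {e : E} (he : e ∈ G.cut {w}) (X : Finset V) :
    ∃ p : ℤ, (p = 0 ∨ p = 1) ∧
      (if G.h e ∈ X then (1 : ℤ) else 0) - (if G.t e ∈ X then 1 else 0) =
        og G w e * (p - if w ∈ X then 1 else 0) ∧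
      (e ∈ G.cut X ↔ ¬ p = if w ∈ X then 1 else 0) := by
  rw [OrGraph.cut, mem_filter] at he
  have h3 := he.2
  simp only [mem_singleton] at h3
  unfold og OrGraph.cut
  by_cases a : G.t e = w
  · refine ⟨if G.h e ∈ X then 1 else 0, ?_, ?_, ?_⟩
    · split_ifs
      · exact Or.inr rfl
      · exact Or.inl rfl
    · rw [if_pos a, a]
      ring
    · rw [mem_filter, a]
      by_cases c : w ∈ X <;> by_cases d : G.h e ∈ X <;> simp [c, d]
  · have b : G.h e = w := by
      by_contra b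
      exact h3 ⟨fun c => absurd c a, fun c => absurd c b⟩
    refine ⟨if G.t e ∈ X then 1 else 0, ?_, ?_, ?_⟩
    · split_ifs
      · exact Or.inr rfl
      · exact Or.inl rfl
    · rw [if_neg a, b]
      ring
    · rw [mem_filter, b]
      by_cases c : w ∈ X <;> by_cases d : G.t e ∈ X <;> simp [c, d]

theorem k4_third : ∀ a b c : K4, a ≠ 0 → b ≠ 0 → c ≠ 0 → a + (b + c) = 0 →
    a ≠ b ∧ a ≠ c ∧ b ≠ c := by decide

theorem core {G : OrGraph V E} {f : E → K4} (hnz : ∀ e, f e ≠ 0) (hf : ∀ x, bd G f x = 0) {w : V}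
    {e0 e1 e2 : E} (h01 : e0 ≠ e1) (h02 : e0 ≠ e2) (h12 : e1 ≠ e2)
    (hw : G.cut {w} = {e0, e1, e2}) (α β : E → ℤ) (hα0 : α e0 = 0)
    (hα1 : α e1 = 1 ∨ α e1 = -1) (hαs : og G w e1 * α e1 + og G w e2 * α e2 = 0)
    (hβs : og G w e0 * β e0 + og G w e1 * β e1 + og G w e2 * β e2 = 0)
    (hβ0 : 2 ≤ |β e0|) (hβ0' : |β e0| ≤ 3) (hβ1 : |β e1| ≤ 3) (hβ12 : |β e2| ≤ |β e1|) :
    ∃ φ₂ φ₄ : E → ℤ, G.IsHalfFlowPair φ₂ φ₄ ∧ ∀ e ∈ G.cut {w}, φ₂ e = α e ∧ φ₄ e = β e := by
  classical
  have hsum3 : ∀ {M : Type} [AddCommMonoid M] (φ : E → M),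
      ∑ e ∈ G.cut {w}, φ e = φ e0 + (φ e1 + φ e2) := by
    intro M _ φ
    rw [hw, Finset.sum_insert, Finset.sum_pair h12]
    simp only [mem_insert, mem_singleton, not_or]
    exact ⟨h01, h02⟩
  have hm0 : e0 ∈ G.cut {w} := by rw [hw]; simp
  have hm1 : e1 ∈ G.cut {w} := by rw [hw]; simp
  have hm2 : e2 ∈ G.cut {w} := by rw [hw]; simp
  have hfs : f e0 + (f e1 + f e2) = 0 := by
    rw [← hsum3 f, ← sum_bd, Finset.sum_singleton, hf w]
  obtain ⟨hc1, hc2, hc3⟩ := k4_third _ _ _ (hnz e0) (hnz e1) (hnz e2) hfs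
  set F : Finset E := univ.filter (fun g => om (f e0) (f g) ≠ 0) with hFdef
  set D : Finset E := univ.filter (fun g => om (f e2) (f g) ≠ 0) with hDdef
  have hFm : ∀ g, g ∈ F ↔ f g ≠ f e0 := fun g => by
    rw [hFdef, mem_filter, om_ne _ _ (hnz e0)]
    exact ⟨fun h => h.2.2, fun h => ⟨mem_univ _, hnz g, h⟩⟩
  have hDm : ∀ g, g ∈ D ↔ f g ≠ f e2 := fun g => by
    rw [hDdef, mem_filter, om_ne _ _ (hnz e2)]
    exact ⟨fun h => h.2.2, fun h => ⟨mem_univ _, hnz g, h⟩⟩
  have hFe : ∀ v, Even (G.deg F v) := fun v => by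
    rw [← ZMod.natCast_eq_zero_iff_even, hFdef, deg_cast, hf v, map_zero]
  have hDe : ∀ v, Even (G.deg D v) := fun v => by
    rw [← ZMod.natCast_eq_zero_iff_even, hDdef, deg_cast, hf v, map_zero]
  have h0F : e0 ∉ F := fun h => (hFm e0).1 h rfl
  have h1F : e1 ∈ F := (hFm e1).2 (Ne.symm hc1)
  have h2F : e2 ∈ F := (hFm e2).2 (Ne.symm hc2)
  have h0D : e0 ∈ D := (hDm e0).2 hc2
  have h1D : e1 ∈ D := (hDm e1).2 hc3
  have h2D : e2 ∉ D := fun h => (hDm e2).1 h rfl
  obtain ⟨ψ, hψ1, hψ2⟩ := eulerian G.t G.h F hFe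
  obtain ⟨κ0, hκ01, hκ02⟩ := eulerian G.t G.h D hDe
  have hsq : ∀ a : ℤ, (a = 1 ∨ a = -1) → a * a = 1 := by
    rintro a (rfl | rfl) <;> norm_num
  -- the 2-flow
  have hψw : og G w e1 * ψ e1 + og G w e2 * ψ e2 = 0 := by
    have h := hψ2 w
    rw [net_star, hsum3, (hψ1 e0).2 h0F, mul_zero, zero_add] at h
    exact h
  -- the orientation of `D`
  obtain ⟨σ, z0, hσ, hz0, hβσ⟩ : ∃ σ z0 : ℤ, (σ = 1 ∨ σ = -1) ∧ (2 ≤ z0 ∧ z0 ≤ 3) ∧
      β e0 = σ * z0 := by
    rcases abs_cases (β e0) with ⟨h1, _⟩ | ⟨h1, _⟩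
    · exact ⟨1, β e0, Or.inl rfl, ⟨by omega, by omega⟩, by ring⟩
    · exact ⟨-1, -β e0, Or.inr rfl, ⟨by omega, by omega⟩, by ring⟩
  have hκe0 := (hκ01 e0).1 h0D
  obtain ⟨κ, hκD, hκ0, hκn, hκ00⟩ : ∃ κ : E → ℤ, (∀ e ∈ D, κ e = 1 ∨ κ e = -1) ∧
      (∀ e, e ∉ D → κ e = 0) ∧ (∀ v, net G.t G.h κ v = 0) ∧ κ e0 = σ := by
    refine ⟨fun e => σ * κ0 e0 * κ0 e, fun e he => ?_, fun e he => ?_, fun v => ?_, ?_⟩
    · show σ * κ0 e0 * κ0 e = 1 ∨ σ * κ0 e0 * κ0 e = -1
      rcases hσ with h1 | h1 <;> rcases hκe0 with h2 | h2 <;>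
        rcases (hκ01 e).1 he with h3 | h3 <;> rw [h1, h2, h3] <;> norm_num
    · show σ * κ0 e0 * κ0 e = 0
      rw [(hκ01 e).2 he, mul_zero]
    · have h1 := hκ02 v
      unfold net at h1 ⊢
      rw [← Finset.mul_sum, ← Finset.mul_sum, ← mul_sub, h1, mul_zero]
    · show σ * κ0 e0 * κ0 e0 = σ
      rw [mul_assoc, hsq _ hκe0, mul_one]
  have hκw : og G w e0 * σ + og G w e1 * κ e1 = 0 := by
    have h := hκn w
    rw [net_star, hsum3, hκ0 e2 h2D, mul_zero, add_zero, hκ00] at h
    exact h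
  have hval : ∀ e, κ e = 1 ∨ κ e = -1 ∨ κ e = 0 := fun e => by
    by_cases he : e ∈ D
    · rcases hκD e he with h1 | h1
      · exact Or.inl h1
      · exact Or.inr (Or.inl h1)
    · exact Or.inr (Or.inr (hκ0 e he))
  have hFD : ∀ e, e ∉ F → κ e ≠ 0 := by
    intro e he
    have h1 : f e = f e0 := by
      by_contra h
      exact he ((hFm e).2 h)
    have h2 : e ∈ D := (hDm e).2 (by rw [h1]; exact hc2)
    rcases hκD e h2 with h3 | h3 <;> rw [h3] <;> norm_num
  have hS : ∀ φ : E → ℤ, ∑ e ∈ G.cut {w}, φ e = ∑ e, if e ∈ G.cut {w} then φ e else 0 := by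
    intro φ
    rw [Finset.sum_ite_mem, Finset.univ_inter]
  have hAz : 2 ≤ og G w e0 * σ * (og G w e0 * β e0) ∧ og G w e0 * σ * (og G w e0 * β e0) ≤ 3 := by
    have h1 : og G w e0 * σ * (og G w e0 * β e0) = z0 := by
      rw [hβσ]
      have h2 := hsq _ (og_or G w e0)
      have h3 := hsq _ hσ
      calc og G w e0 * σ * (og G w e0 * (σ * z0)) = (og G w e0 * og G w e0) * (σ * σ) * z0 := by
            ring
        _ = z0 := by rw [h2, h3]; ring
    rw [h1]
    exact hz0
  have hAy : -1 ≤ og G w e2 * β e2 ∧ og G w e2 * β e2 ≤ 1 := by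
    rcases abs_cases (β e1) with ⟨h1, _⟩ | ⟨h1, _⟩ <;>
    rcases abs_cases (β e2) with ⟨h2, _⟩ | ⟨h2, _⟩ <;>
    rcases abs_cases (β e0) with ⟨h3, _⟩ | ⟨h3, _⟩ <;>
    rcases og_or G w e0 with h | h <;> rcases og_or G w e1 with h' | h' <;>
    rcases og_or G w e2 with h'' | h'' <;>
    rw [h, h', h''] at hβs <;> rw [h''] <;> constructor <;> omega
  have hAx : 1 ≤ - (og G w e0 * σ * (og G w e1 * β e1)) ∧
      - (og G w e0 * σ * (og G w e1 * β e1)) ≤ 3 := by
    rcases abs_cases (β e1) with ⟨h1, _⟩ | ⟨h1, _⟩ <;>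
    rcases abs_cases (β e2) with ⟨h2, _⟩ | ⟨h2, _⟩ <;>
    rcases og_or G w e0 with h | h <;> rcases og_or G w e1 with h' | h' <;>
    rcases og_or G w e2 with h'' | h'' <;> rcases hσ with h3 | h3 <;>
    rw [h3] at hβσ <;>
    rw [h, h', h''] at hβs <;> rw [h, h', h3] <;> constructor <;> omega
  obtain ⟨φ₄, h41, h42⟩ := hoffman G.t G.h
    (fun e => if e ∈ G.cut {w} then β e else if e ∈ F then -3 else if κ e = 1 then 2 else -3)
    (fun e => if e ∈ G.cut {w} then β e else if e ∈ F then 3 else if κ e = 1 then 3 else -2)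
    (fun _ => 0) (fun e => by split_ifs <;> simp) (by simp) (by
      intro X
      let s : E → ℤ := fun e => (if G.h e ∈ X then κ e else 0) - (if G.t e ∈ X then κ e else 0)
      let N1 := univ.filter (fun e => e ∉ G.cut {w} ∧ e ∈ G.cut X ∧ e ∉ F ∧ s e = 1)
      let N2 := univ.filter (fun e => e ∉ G.cut {w} ∧ e ∈ G.cut X ∧ e ∉ F ∧ s e = -1)
      let N3 := univ.filter (fun e => e ∉ G.cut {w} ∧ e ∈ G.cut X ∧ e ∈ F ∧ s e = 1)
      let N4 := univ.filter (fun e => e ∉ G.cut {w} ∧ e ∈ G.cut X ∧ e ∈ F ∧ s e = -1)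
      let N5 := univ.filter (fun e => e ∉ G.cut {w} ∧ e ∈ G.cut X ∧ e ∈ F ∧ s e = 0)
      have c1 : (N1.card : ℤ) =
          ∑ e, if (e ∉ G.cut {w} ∧ e ∈ G.cut X ∧ e ∉ F ∧ s e = 1) then 1 else 0 := by
        simp only [Finset.sum_boole, N1]
      have c2 : (N2.card : ℤ) =
          ∑ e, if (e ∉ G.cut {w} ∧ e ∈ G.cut X ∧ e ∉ F ∧ s e = -1) then 1 else 0 := by
        simp only [Finset.sum_boole, N2]
      have c3 : (N3.card : ℤ) =
          ∑ e, if (e ∉ G.cut {w} ∧ e ∈ G.cut X ∧ e ∈ F ∧ s e = 1) then 1 else 0 := by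
        simp only [Finset.sum_boole, N3]
      have c4 : (N4.card : ℤ) =
          ∑ e, if (e ∉ G.cut {w} ∧ e ∈ G.cut X ∧ e ∈ F ∧ s e = -1) then 1 else 0 := by
        simp only [Finset.sum_boole, N4]
      have c5 : (N5.card : ℤ) =
          ∑ e, if (e ∉ G.cut {w} ∧ e ∈ G.cut X ∧ e ∈ F ∧ s e = 0) then 1 else 0 := by
        simp only [Finset.sum_boole, N5]
      have c7 : ((G.cut X ∩ F).card : ℤ) = ∑ e, if e ∈ G.cut X ∩ F then 1 else 0 := by
        simp only [Finset.sum_boole]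
        congr 2
        ext e; simp
      obtain ⟨p0, hp0, hd0, hx0⟩ := star_side G w hm0 X
      obtain ⟨p1, hp1, hd1, hx1⟩ := star_side G w hm1 X
      obtain ⟨p2, hp2, hd2, hx2⟩ := star_side G w hm2 X
      set q : ℤ := if w ∈ X then 1 else 0 with hq
      have hq' : q = 0 ∨ q = 1 := by
        rw [hq]; split_ifs
        · exact Or.inr rfl
        · exact Or.inl rfl
      have hff : ff G.t G.h
          (fun e => if e ∈ G.cut {w} then β e else if e ∈ F then -3 else if κ e = 1 then 2 else -3)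
          (fun e => if e ∈ G.cut {w} then β e else if e ∈ F then 3 else if κ e = 1 then 3 else -2)
          (fun _ => 0) X =
          3 * N1.card - 2 * N2.card + 3 * N3.card + 3 * N4.card + 3 * N5.card +
          ∑ e ∈ G.cut {w}, β e *
            ((if G.h e ∈ X then (1 : ℤ) else 0) - (if G.t e ∈ X then 1 else 0)) := by
        rw [hS]
        unfold ff
        rw [c1, c2, c3, c4, c5, Finset.mul_sum, Finset.mul_sum, Finset.mul_sum, Finset.mul_sum,
          Finset.mul_sum, ← Finset.sum_sub_distrib, ← Finset.sum_add_distrib,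
          ← Finset.sum_add_distrib, ← Finset.sum_add_distrib, ← Finset.sum_add_distrib,
          Finset.sum_const_zero, zero_add]
        refine Finset.sum_congr rfl fun e _ => ?_
        unfold ce
        have hcX : e ∈ G.cut X ↔ ¬ (G.t e ∈ X ↔ G.h e ∈ X) := by
          rw [OrGraph.cut, mem_filter]; simp
        by_cases hS' : e ∈ G.cut {w}
        · by_cases a : G.t e ∈ X <;> by_cases b : G.h e ∈ X <;> simp [a, b, hS']
        · simp only [s, hcX, hS', if_false, not_false_eq_true, true_and, add_zero]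
          by_cases he : e ∈ F
          · rcases hval e with h | h | h <;>
            by_cases a : G.t e ∈ X <;> by_cases b : G.h e ∈ X <;> simp [a, b, he, h]
          · have h0 := hFD e he
            rcases hval e with h | h | h
            · by_cases a : G.t e ∈ X <;> by_cases b : G.h e ∈ X <;> simp [a, b, he, h]
            · by_cases a : G.t e ∈ X <;> by_cases b : G.h e ∈ X <;> simp [a, b, he, h]
            · exact absurd h h0
      have hnet : ∑ v ∈ X, net G.t G.h κ v = (N2.card : ℤ) + N4.card - N1.card - N3.card -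
          ∑ e ∈ G.cut {w}, κ e *
            ((if G.h e ∈ X then (1 : ℤ) else 0) - (if G.t e ∈ X then 1 else 0)) := by
        rw [net_sum, hS, c1, c2, c3, c4, ← Finset.sum_add_distrib, ← Finset.sum_sub_distrib,
          ← Finset.sum_sub_distrib, ← Finset.sum_sub_distrib]
        refine Finset.sum_congr rfl fun e _ => ?_
        have hcX : e ∈ G.cut X ↔ ¬ (G.t e ∈ X ↔ G.h e ∈ X) := by
          rw [OrGraph.cut, mem_filter]; simp
        by_cases hS' : e ∈ G.cut {w}
        · by_cases a : G.t e ∈ X <;> by_cases b : G.h e ∈ X <;> simp [a, b, hS']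
        · simp only [s, hcX, hS', if_false, not_false_eq_true, true_and, sub_zero]
          by_cases he : e ∈ F
          · rcases hval e with h | h | h <;>
            by_cases a : G.t e ∈ X <;> by_cases b : G.h e ∈ X <;> simp [a, b, he, h]
          · have h0 := hFD e he
            rcases hval e with h | h | h
            · by_cases a : G.t e ∈ X <;> by_cases b : G.h e ∈ X <;> simp [a, b, he, h]
            · by_cases a : G.t e ∈ X <;> by_cases b : G.h e ∈ X <;> simp [a, b, he, h]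
            · exact absurd h h0
      have hcutF : ((G.cut X ∩ F).card : ℤ) = N3.card + N4.card + N5.card +
          ∑ e ∈ G.cut {w}, if e ∈ G.cut X ∩ F then 1 else 0 := by
        rw [c7, hS, c3, c4, c5, ← Finset.sum_add_distrib, ← Finset.sum_add_distrib,
          ← Finset.sum_add_distrib]
        refine Finset.sum_congr rfl fun e _ => ?_
        have hcX : e ∈ G.cut X ↔ ¬ (G.t e ∈ X ↔ G.h e ∈ X) := by
          rw [OrGraph.cut, mem_filter]; simp
        by_cases hS' : e ∈ G.cut {w}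
        · simp [hS']
        · simp only [s, mem_inter, hcX, hS', if_false, not_false_eq_true, true_and, add_zero]
          by_cases he : e ∈ F
          · rcases hval e with h | h | h <;>
            by_cases a : G.t e ∈ X <;> by_cases b : G.h e ∈ X <;> simp [a, b, he, h]
          · simp [he]
      have hhs := G.handshake F X
      have heven : Even (∑ v ∈ X, G.deg F v) := Finset.even_sum _ (fun v _ => hFe v)
      rw [hhs, Nat.even_add] at heven
      have heven2 : Even (G.cut X ∩ F).card := heven.1 (even_two_mul _)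
      have heven3 : Even (((G.cut X ∩ F).card : ℕ) : ℤ) := by exact_mod_cast heven2
      have hnet0 : ∑ v ∈ X, net G.t G.h κ v = 0 := Finset.sum_eq_zero fun v _ => hκn v
      rw [hnet0, hsum3, hd0, hd1, hd2, hκ00, hκ0 e2 h2D] at hnet
      rw [hcutF, hsum3, if_neg (fun h => h0F (mem_inter.1 h).2)] at heven3
      have hi1 : (e1 ∈ G.cut X ∩ F) ↔ ¬ p1 = q := by
        rw [mem_inter, hx1]
        exact ⟨fun h => h.1, fun h => ⟨h, h1F⟩⟩
      have hi2 : (e2 ∈ G.cut X ∩ F) ↔ ¬ p2 = q := by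
        rw [mem_inter, hx2]
        exact ⟨fun h => h.1, fun h => ⟨h, h2F⟩⟩
      rw [if_congr hi1 rfl rfl, if_congr hi2 rfl rfl, ite_not, ite_not, zero_add, ← add_assoc]
        at heven3
      rw [hff, hsum3, hd0, hd1, hd2]
      have hmain := arith N1.card N2.card N3.card N4.card N5.card p0 p1 p2 q (og G w e0 * σ)
        (og G w e0 * β e0) (og G w e1 * β e1) (og G w e2 * β e2) hp0 hp1 hp2 hq'
        (by rcases og_or G w e0 with h | h <;> rcases hσ with h' | h' <;> rw [h, h'] <;> norm_num)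
        hβs hAz hAx hAy ?_ heven3
      · rw [← sub_nonneg] at hmain ⊢
        refine le_of_le_of_eq hmain ?_
        ring
      · linear_combination hnet - (p1 - q) * hκw)
  have hφβ : ∀ e ∈ G.cut {w}, φ₄ e = β e := fun e he => by
    have h := h41 e
    rw [if_pos he, if_pos he] at h
    omega
  have hβ2 : |β e2| ≤ 3 := le_trans hβ12 hβ1
  have hmemw : ∀ e ∈ G.cut {w}, e = e0 ∨ e = e1 ∨ e = e2 := fun e he => by
    rw [hw] at he
    simpa using he
  have hα1' : α e1 * ψ e1 = 1 ∨ α e1 * ψ e1 = -1 := by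
    rcases hα1 with h | h <;> rcases (hψ1 e1).1 h1F with h' | h' <;> rw [h, h'] <;> norm_num
  refine ⟨fun e => α e1 * ψ e1 * ψ e, φ₄, ⟨⟨fun e => ?_, G.isFlow_of_net fun v => ?_⟩,
    ⟨fun e => ?_, G.isFlow_of_net h42⟩, fun e he => ?_⟩, fun e he => ⟨?_, hφβ e he⟩⟩
  · show |α e1 * ψ e1 * ψ e| ≤ ((2 : ℕ) : ℤ) - 1
    by_cases he : e ∈ F
    · rcases hα1' with h | h <;> rcases (hψ1 e).1 he with h' | h' <;> rw [h, h'] <;> norm_num
    · rw [(hψ1 e).2 he]; simp
  · have h1 := hψ2 v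
    unfold net at h1 ⊢
    rw [← Finset.mul_sum, ← Finset.mul_sum, ← mul_sub, h1, mul_zero]
  · by_cases hc : e ∈ G.cut {w}
    · rw [hφβ e hc]
      push_cast
      rcases hmemw e hc with rfl | rfl | rfl
      · linarith
      · linarith
      · linarith
    · have h1 := h41 e
      rw [if_neg hc, if_neg hc] at h1
      rw [abs_le]
      push_cast
      split_ifs at h1 <;> constructor <;> omega
  · have he' : e ∉ F := by
      intro heF
      have he2 : α e1 * ψ e1 * ψ e = 0 := he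
      rcases hα1' with h | h <;> rcases (hψ1 e).1 heF with h' | h' <;> rw [h, h'] at he2 <;>
        norm_num at he2
    by_cases hc : e ∈ G.cut {w}
    · rcases hmemw e hc with rfl | rfl | rfl
      · rw [hφβ _ hc]; exact hβ0
      · exact absurd h1F he'
      · exact absurd h2F he'
    · have h1 := h41 e
      rw [if_neg hc, if_neg hc, if_neg he', if_neg he'] at h1
      rw [le_abs]
      split_ifs at h1
      · left; exact h1.1
      · right; omega
  · show α e1 * ψ e1 * ψ e = α e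
    have hs1 := hsq _ ((hψ1 e1).1 h1F)
    rcases hmemw e he with rfl | rfl | rfl
    · rw [(hψ1 _).2 h0F, mul_zero, hα0]
    · rw [mul_assoc, hs1, mul_one]
    · have hs2 := hsq _ (og_or G w e)
      linear_combination (og G w e * α e1 * ψ e1) * hψw - (og G w e * og G w e1 * α e1) * hs1 +
        (-(α e1 * ψ e1 * ψ e) + α e) * hs2 - og G w e * hαs

end Pool.Agent.TH499.NF
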